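import Mathlib

/-! MP_0ec205_nt: an `L¹` lower bound for linear combinations of nearly orthogonal functions. -/

set_option autoImplicit false

namespace Pool.Agent.K7.H54.AF

open MeasureTheory

lemma l1_low {f : ℝ → ℝ} (hf : Continuous f) {A B s : ℝ} (hAB : A ≤ B) (hs : 0 < s) :
    3 / (2 * s) * (∫ t in A..B, f t ^ 2) - 1 / (2 * s ^ 3) * (∫ t in A..B, f t ^ 4) ≤
      ∫ t in A..B, |f t| := by
  rw [← intervalIntegral.integral_const_mul, ← intervalIntegral.integral_const_mul,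
    ← intervalIntegral.integral_sub (Continuous.intervalIntegrable (by fun_prop) _ _)
      (Continuous.intervalIntegrable (by fun_prop) _ _)]
  refine intervalIntegral.integral_mono_on hAB (Continuous.intervalIntegrable (by fun_prop) _ _)
    (Continuous.intervalIntegrable (by fun_prop) _ _) fun t _ => ?_
  set y := |f t| / s with hy
  have hy0 : 0 ≤ y := by positivity
  have h1 : |f t| = s * y := by rw [hy]; field_simp
  have h2 : f t ^ 2 = s ^ 2 * y ^ 2 := by rw [← sq_abs, h1]; ring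
  have h4 : f t ^ 4 = s ^ 4 * y ^ 4 := by
    have : f t ^ 4 = (f t ^ 2) ^ 2 := by ring
    rw [this, h2]; ring
  rw [h2, h4, h1]
  have e : 3 / (2 * s) * (s ^ 2 * y ^ 2) - 1 / (2 * s ^ 3) * (s ^ 4 * y ^ 4) =
      s * (3 / 2 * y ^ 2 - 1 / 2 * y ^ 4) := by
    field_simp
  rw [e]
  apply mul_le_mul_of_nonneg_left _ hs.le
  nlinarith [mul_nonneg hy0 (mul_nonneg (sq_nonneg (y - 1)) (by linarith : 0 ≤ y + 2))]

lemma sum4 {ι : Type*} (D : Finset ι) (y : ι → ℝ) :
    (∑ d ∈ D, y d) ^ 4 ≤ (D.card : ℝ) ^ 3 * ∑ d ∈ D, y d ^ 4 := by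
  have h1 := sq_sum_le_card_mul_sum_sq (s := D) (f := y)
  have h2 := sq_sum_le_card_mul_sum_sq (s := D) (f := fun d => y d ^ 2)
  have h3 : (∑ d ∈ D, y d) ^ 4 = ((∑ d ∈ D, y d) ^ 2) ^ 2 := by ring
  rw [h3]
  have h4 : ((∑ d ∈ D, y d) ^ 2) ^ 2 ≤ ((D.card : ℝ) * ∑ d ∈ D, y d ^ 2) ^ 2 :=
    pow_le_pow_left₀ (sq_nonneg _) h1 2
  refine h4.trans ?_
  rw [mul_pow]
  have h5 : (∑ d ∈ D, (y d ^ 2) ^ 2) = ∑ d ∈ D, y d ^ 4 :=
    Finset.sum_congr rfl fun d _ => by ring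
  rw [h5] at h2
  have h6 := mul_le_mul_of_nonneg_left h2 (show (0 : ℝ) ≤ (D.card : ℝ) ^ 2 by positivity)
  calc (D.card : ℝ) ^ 2 * (∑ d ∈ D, y d ^ 2) ^ 2 ≤ (D.card : ℝ) ^ 2 * ((D.card : ℝ) *
        ∑ d ∈ D, y d ^ 4) := h6
    _ = (D.card : ℝ) ^ 3 * ∑ d ∈ D, y d ^ 4 := by ring

lemma w4 {ι : Type*} (D : Finset ι) (w : ι → ℝ) :
    ∑ d ∈ D, w d ^ 4 ≤ (∑ d ∈ D, w d ^ 2) ^ 2 := by
  have h1 : ∑ d ∈ D, w d ^ 4 = ∑ d ∈ D, (w d ^ 2) ^ 2 := Finset.sum_congr rfl fun d _ => by ring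
  rw [h1, sq (∑ d ∈ D, w d ^ 2), Finset.sum_mul]
  refine Finset.sum_le_sum fun d hd => ?_
  rw [sq]
  exact mul_le_mul_of_nonneg_left
    (Finset.single_le_sum (f := fun d => w d ^ 2) (fun e _ => sq_nonneg _) hd) (sq_nonneg _)

lemma sq_int {ι : Type*} [DecidableEq ι] (D : Finset ι) (P : ι → ℝ → ℝ) (hP : ∀ d, Continuous (P d))
    (w : ι → ℝ) (A B : ℝ) :
    ∫ t in A..B, (∑ d ∈ D, w d * P d t) ^ 2 =
      ∑ d ∈ D, ∑ e ∈ D, w d * w e * ∫ t in A..B, P d t * P e t := by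
  have h1 : ∀ t, (∑ d ∈ D, w d * P d t) ^ 2 = ∑ d ∈ D, ∑ e ∈ D, w d * w e * (P d t * P e t) := by
    intro t
    rw [sq, Finset.sum_mul_sum]
    refine Finset.sum_congr rfl fun d _ => Finset.sum_congr rfl fun e _ => by ring
  simp_rw [h1]
  rw [intervalIntegral.integral_finsetSum]
  · refine Finset.sum_congr rfl fun d _ => ?_
    rw [intervalIntegral.integral_finsetSum]
    · refine Finset.sum_congr rfl fun e _ => ?_
      rw [intervalIntegral.integral_const_mul]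
    · intro e _
      have h2 := hP d
      have h3 := hP e
      exact Continuous.intervalIntegrable (by fun_prop) _ _
  · intro d _
    refine Continuous.intervalIntegrable ?_ _ _
    refine continuous_finsetSum _ fun e _ => ?_
    have h2 := hP d
    have h3 := hP e
    fun_prop

/-- second moment of a linear combination: lower and upper bounds -/
lemma sq_bounds {ι : Type*} [DecidableEq ι] (D : Finset ι) (P : ι → ℝ → ℝ)
    (hP : ∀ d, Continuous (P d)) (w : ι → ℝ) (A B Q1 Q2 ε : ℝ) (hε : 0 ≤ ε)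
    (h1 : ∀ d ∈ D, Q1 ≤ ∫ t in A..B, P d t * P d t) (h2 : ∀ d ∈ D, ∫ t in A..B, P d t * P d t ≤ Q2)
    (hx : ∀ d ∈ D, ∀ e ∈ D, d ≠ e → |∫ t in A..B, P d t * P e t| ≤ ε) :
    (Q1 - D.card * ε) * (∑ d ∈ D, w d ^ 2) ≤ ∫ t in A..B, (∑ d ∈ D, w d * P d t) ^ 2 ∧
      ∫ t in A..B, (∑ d ∈ D, w d * P d t) ^ 2 ≤ (Q2 + D.card * ε) * (∑ d ∈ D, w d ^ 2) := by
  rw [sq_int D P hP]
  set W := ∑ d ∈ D, w d ^ 2 with hW
  have key : ∀ d ∈ D, |∑ e ∈ D, w d * w e * (∫ t in A..B, P d t * P e t) -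
      w d ^ 2 * ∫ t in A..B, P d t * P d t| ≤ ε * (|w d| * ∑ e ∈ D, |w e|) := by
    intro d hd
    rw [← Finset.add_sum_erase D _ hd]
    have e1 : w d * w d * (∫ t in A..B, P d t * P d t) +
        ∑ e ∈ D.erase d, w d * w e * (∫ t in A..B, P d t * P e t) -
        w d ^ 2 * (∫ t in A..B, P d t * P d t) =
        ∑ e ∈ D.erase d, w d * w e * (∫ t in A..B, P d t * P e t) := by ring
    rw [e1]
    refine (Finset.abs_sum_le_sum_abs _ _).trans ?_
    calc ∑ e ∈ D.erase d, |w d * w e * ∫ t in A..B, P d t * P e t|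
        ≤ ∑ e ∈ D.erase d, ε * (|w d| * |w e|) := by
          refine Finset.sum_le_sum fun e he => ?_
          rw [abs_mul, abs_mul, mul_comm]
          exact mul_le_mul_of_nonneg_right (hx d hd e (Finset.mem_of_mem_erase he)
            (Finset.ne_of_mem_erase he).symm) (by positivity)
      _ ≤ ∑ e ∈ D, ε * (|w d| * |w e|) :=
          Finset.sum_le_sum_of_subset_of_nonneg (Finset.erase_subset _ _)
            fun e _ _ => by positivity
      _ = ε * (|w d| * ∑ e ∈ D, |w e|) := by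
          rw [Finset.mul_sum, Finset.mul_sum]
  have hsum : ∑ d ∈ D, ε * (|w d| * ∑ e ∈ D, |w e|) ≤ ε * (D.card * W) := by
    rw [← Finset.mul_sum, ← Finset.sum_mul]
    apply mul_le_mul_of_nonneg_left _ hε
    have h3 := sq_sum_le_card_mul_sum_sq (s := D) (f := fun d => |w d|)
    simp only [sq_abs] at h3
    rw [← sq]
    exact h3
  have a1 : ∑ d ∈ D, w d ^ 2 * (∫ t in A..B, P d t * P d t) - ε * (D.card * W) ≤
      ∑ d ∈ D, ∑ e ∈ D, w d * w e * ∫ t in A..B, P d t * P e t := by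
    have h4 : ∑ d ∈ D, (w d ^ 2 * (∫ t in A..B, P d t * P d t) - ε * (|w d| * ∑ e ∈ D, |w e|)) ≤
        ∑ d ∈ D, ∑ e ∈ D, w d * w e * ∫ t in A..B, P d t * P e t :=
      Finset.sum_le_sum fun d hd => by linarith [(abs_le.1 (key d hd)).1]
    rw [Finset.sum_sub_distrib] at h4
    linarith
  have a2 : ∑ d ∈ D, ∑ e ∈ D, w d * w e * (∫ t in A..B, P d t * P e t) ≤
      ∑ d ∈ D, w d ^ 2 * (∫ t in A..B, P d t * P d t) + ε * (D.card * W) := by
    have h4 : ∑ d ∈ D, ∑ e ∈ D, w d * w e * (∫ t in A..B, P d t * P e t) ≤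
        ∑ d ∈ D, (w d ^ 2 * (∫ t in A..B, P d t * P d t) + ε * (|w d| * ∑ e ∈ D, |w e|)) :=
      Finset.sum_le_sum fun d hd => by linarith [(abs_le.1 (key d hd)).2]
    rw [Finset.sum_add_distrib] at h4
    linarith
  have b1 : Q1 * W ≤ ∑ d ∈ D, w d ^ 2 * (∫ t in A..B, P d t * P d t) := by
    rw [hW, Finset.mul_sum]
    refine Finset.sum_le_sum fun d hd => ?_
    rw [mul_comm]
    exact mul_le_mul_of_nonneg_left (h1 d hd) (sq_nonneg _)
  have b2 : ∑ d ∈ D, w d ^ 2 * (∫ t in A..B, P d t * P d t) ≤ Q2 * W := by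
    rw [hW, Finset.mul_sum]
    refine Finset.sum_le_sum fun d hd => ?_
    rw [mul_comm Q2]
    exact mul_le_mul_of_nonneg_left (h2 d hd) (sq_nonneg _)
  constructor
  · have : (Q1 - D.card * ε) * W = Q1 * W - ε * (D.card * W) := by ring
    linarith
  · have : (Q2 + D.card * ε) * W = Q2 * W + ε * (D.card * W) := by ring
    linarith

lemma four_int {ι : Type*} (D : Finset ι) (P : ι → ℝ → ℝ) (hP : ∀ d, Continuous (P d))
    (w : ι → ℝ) {A B M : ℝ} (hAB : A ≤ B) (h4 : ∀ d ∈ D, ∫ t in A..B, P d t ^ 4 ≤ M) :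
    ∫ t in A..B, (∑ d ∈ D, w d * P d t) ^ 4 ≤ (D.card : ℝ) ^ 3 * (M * (∑ d ∈ D, w d ^ 2) ^ 2) := by
  rcases D.eq_empty_or_nonempty with hD | hD
  · subst hD; simp
  have hM : 0 ≤ M := by
    obtain ⟨d, hd⟩ := hD
    refine le_trans (intervalIntegral.integral_nonneg hAB fun t _ => ?_) (h4 d hd)
    positivity
  have hc : ∀ d, Continuous fun t => w d ^ 4 * P d t ^ 4 := fun d => by
    have := hP d
    fun_prop
  have h1 : ∫ t in A..B, (∑ d ∈ D, w d * P d t) ^ 4 ≤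
      ∫ t in A..B, (D.card : ℝ) ^ 3 * ∑ d ∈ D, w d ^ 4 * P d t ^ 4 := by
    refine intervalIntegral.integral_mono_on hAB (Continuous.intervalIntegrable ?_ _ _)
      (Continuous.intervalIntegrable ?_ _ _) fun t _ => ?_
    · exact (continuous_finsetSum _ fun d _ => continuous_const.mul (hP d)).pow 4
    · exact continuous_const.mul (continuous_finsetSum _ fun d _ => hc d)
    · refine (sum4 D fun d => w d * P d t).trans (le_of_eq ?_)
      congr 1
      exact Finset.sum_congr rfl fun d _ => by ring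
  refine h1.trans ?_
  rw [intervalIntegral.integral_const_mul, intervalIntegral.integral_finsetSum
    (fun d _ => Continuous.intervalIntegrable (hc d) _ _)]
  apply mul_le_mul_of_nonneg_left _ (by positivity)
  calc ∑ d ∈ D, ∫ t in A..B, w d ^ 4 * P d t ^ 4 ≤ ∑ d ∈ D, w d ^ 4 * M := by
        refine Finset.sum_le_sum fun d hd => ?_
        rw [intervalIntegral.integral_const_mul]
        exact mul_le_mul_of_nonneg_left (h4 d hd) (by positivity)
    _ = M * ∑ d ∈ D, w d ^ 4 := by rw [← Finset.sum_mul]; ring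
    _ ≤ M * (∑ d ∈ D, w d ^ 2) ^ 2 := mul_le_mul_of_nonneg_left (w4 D w) hM

/-- the mean of `|f - b|` is at least half of the mean of `|f|` if the mean of `f` is small -/
lemma sub_const {f : ℝ → ℝ} {A B : ℝ} (hAB : A ≤ B) (hf : IntervalIntegrable f volume A B) (b : ℝ) :
    (∫ t in A..B, |f t|) ≤ 2 * (∫ t in A..B, |f t - b|) + |∫ t in A..B, f t| := by
  have hfb : IntervalIntegrable (fun t => f t - b) volume A B :=
    hf.sub (continuous_const.intervalIntegrable _ _)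
  have h1 : ∫ t in A..B, |f t| ≤ ∫ t in A..B, (|f t - b| + |b|) := by
    refine intervalIntegral.integral_mono_on hAB hf.abs
      (hfb.abs.add (continuous_const.intervalIntegrable _ _)) fun t _ => ?_
    have := abs_add_le (f t - b) b
    simpa using this
  rw [intervalIntegral.integral_add hfb.abs (continuous_const.intervalIntegrable _ _),
    intervalIntegral.integral_const, smul_eq_mul] at h1
  have h2 : |∫ t in A..B, (f t - b)| ≤ ∫ t in A..B, |f t - b| :=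
    intervalIntegral.abs_integral_le_integral_abs hAB
  rw [intervalIntegral.integral_sub hf (continuous_const.intervalIntegrable _ _),
    intervalIntegral.integral_const, smul_eq_mul] at h2
  have h3 : (B - A) * |b| ≤ |(∫ t in A..B, f t) - (B - A) * b| + |∫ t in A..B, f t| := by
    have e : (B - A) * |b| = |(B - A) * b| := by
      rw [abs_mul, abs_of_nonneg (sub_nonneg.2 hAB)]
    rw [e]
    have := abs_sub_abs_le_abs_sub ((B - A) * b) (∫ t in A..B, f t)
    rw [abs_sub_comm ((B - A) * b)] at this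
    linarith
  linarith

/-- `L¹` lower bound -/
theorem l1_sum {ι : Type*} [DecidableEq ι] (D : Finset ι) (P : ι → ℝ → ℝ)
    (hP : ∀ d, Continuous (P d)) (w : ι → ℝ) {A B Q ε M σ : ℝ} (hAB : A ≤ B) (hε : 0 ≤ ε)
    (hσ : 0 < σ) (h1 : ∀ d ∈ D, 2 * Q ≤ ∫ t in A..B, P d t * P d t) (hεQ : D.card * ε ≤ Q)
    (hx : ∀ d ∈ D, ∀ e ∈ D, d ≠ e → |∫ t in A..B, P d t * P e t| ≤ ε)
    (h4 : ∀ d ∈ D, ∫ t in A..B, P d t ^ 4 ≤ M) (hM : (D.card : ℝ) ^ 3 * M ≤ 2 * Q * σ ^ 2) :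
    Q / (2 * σ) * Real.sqrt (∑ d ∈ D, w d ^ 2) ≤ ∫ t in A..B, |∑ d ∈ D, w d * P d t| := by
  set W := ∑ d ∈ D, w d ^ 2 with hW
  have hW0 : 0 ≤ W := Finset.sum_nonneg fun d _ => sq_nonneg _
  have hQ : 0 ≤ Q := le_trans (by positivity) hεQ
  have hc : Continuous fun t => ∑ d ∈ D, w d * P d t :=
    continuous_finsetSum _ fun d _ => continuous_const.mul (hP d)
  rcases hW0.eq_or_lt with h0 | h0
  · rw [← h0, Real.sqrt_zero, mul_zero]
    exact intervalIntegral.integral_nonneg hAB fun t _ => abs_nonneg _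
  -- second moment
  obtain ⟨a1, _⟩ : (2 * Q - D.card * ε) * W ≤ ∫ t in A..B, (∑ d ∈ D, w d * P d t) ^ 2 ∧ True := by
    refine ⟨?_, trivial⟩
    by_cases hD : D.Nonempty
    · obtain ⟨d0, hd0⟩ := hD
      exact (sq_bounds D P hP w A B (2 * Q) (D.sup' ⟨d0, hd0⟩ fun d => ∫ t in A..B, P d t * P d t) ε hε
        h1 (fun d hd => Finset.le_sup' (fun d => ∫ t in A..B, P d t * P d t) hd) hx).1
    · rw [Finset.not_nonempty_iff_eq_empty] at hD
      rw [hW, hD] at h0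
      simp at h0
  have a2 : Q * W ≤ ∫ t in A..B, (∑ d ∈ D, w d * P d t) ^ 2 := by
    refine le_trans ?_ a1
    apply mul_le_mul_of_nonneg_right _ hW0
    linarith
  have a3 := four_int D P hP w hAB h4
  rw [← hW] at a3
  set s := σ * Real.sqrt W with hs
  have hsW : 0 < Real.sqrt W := Real.sqrt_pos.2 h0
  have hWs : Real.sqrt W ^ 2 = W := Real.sq_sqrt hW0
  have hs0 : 0 < s := by positivity
  have a4 := l1_low hc hAB hs0
  refine le_trans ?_ a4
  have b1 : 3 / (2 * s) * (Q * W) ≤ 3 / (2 * s) * ∫ t in A..B, (∑ d ∈ D, w d * P d t) ^ 2 :=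
    mul_le_mul_of_nonneg_left a2 (by positivity)
  have b2 : 1 / (2 * s ^ 3) * (∫ t in A..B, (∑ d ∈ D, w d * P d t) ^ 4) ≤
      1 / (2 * s ^ 3) * (2 * Q * σ ^ 2 * W ^ 2) := by
    apply mul_le_mul_of_nonneg_left _ (by positivity)
    refine a3.trans ?_
    have := mul_le_mul_of_nonneg_right hM (show 0 ≤ W ^ 2 by positivity)
    linarith
  have e1 : 3 / (2 * s) * (Q * W) = 3 * (Q / (2 * σ) * Real.sqrt W) := by
    have e0 : Q * W = Q * Real.sqrt W ^ 2 := by rw [hWs]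
    rw [hs, e0]
    field_simp
  have e2 : 1 / (2 * s ^ 3) * (2 * Q * σ ^ 2 * W ^ 2) = 2 * (Q / (2 * σ) * Real.sqrt W) := by
    rw [hs]
    have : W ^ 2 = Real.sqrt W ^ 4 := by
      conv_lhs => rw [← hWs]
      ring
    rw [this]
    field_simp
  linarith

end Pool.Agent.K7.H54.AF
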