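import Pool.Agent.K7.H54.AF.One

/-! MP_0ec205_nt: one affine copy: everything about it for large `T`. -/

set_option autoImplicit false

namespace Pool.Agent.K7.H54.AF

open Filter Topology MeasureTheory
open SG (NZ)
open Pool.Agent.Y743.AF (Prm mem_Prm PP PP_cont VS_eq' S_TW S_CR1 S_CR2 rc_abs_le rc_abs_le' NZ_ii
  er_eq abs_int_le m4 sub_int)
open Pool.Agent.Y743.CL (rc VS VS_nonneg XK rc_bd er comb)

/-- the conclusion of `comb` -/
def Cmb (ℓ C T0 : ℝ) : Prop :=
    ∀ T : ℝ, T0 ≤ T → ∀ a : ℝ, ℓ ≤ a → a * Real.log a ≤ 1 * Real.log T →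
    ∀ κ : ℝ, 0 < κ → κ ≤ 1 / 8 → 8 ≤ κ * Real.log T →
    IntervalIntegrable (fun t => er ℓ κ T a t ^ 2) volume (T + Real.log T) (2 * T - Real.log T - 7) ∧
    ∫ t in (T + Real.log T)..(2 * T - Real.log T - 7), er ℓ κ T a t ^ 2 ≤
      C * (1 + Real.log (1 / κ)) * T ∧
    |VS (rc (Real.log T / ℓ) (2 * Real.pi * a / Real.log T)) (XK κ T) -
      2 / Real.pi ^ 2 * Real.log a| ≤ C * (1 + Real.log (1 / κ))

lemma dN_ii (a T : ℝ) {d : ℝ × ℝ} (hd : 0 < d.1) (A B : ℝ) :
    IntervalIntegrable (dN a T d) volume A B := by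
  have h1 := NZ_ii (hh a T / d.1) d.2 d.1 A B hd
  have h2 := NZ_ii 0 d.2 d.1 A B hd
  simp only [add_zero] at h2
  exact h1.sub h2

/-- the facts about one affine copy -/
structure Facts (ℓ κ a D T : ℝ) (d : ℝ × ℝ) : Prop where
  var : |VS (uu ℓ a T d.1) (XX κ T d.1) - 2 / Real.pi ^ 2 * Real.log (a / d.1)| ≤ D + 1
  sq : |(∫ t in (5 / 4 * T)..(7 / 4 * T), Pd ℓ κ a T d t * Pd ℓ κ a T d t) -
    T / 4 * VS (uu ℓ a T d.1) (XX κ T d.1)| ≤ T
  fo : ∫ t in (5 / 4 * T)..(7 / 4 * T), Pd ℓ κ a T d t ^ 4 ≤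
    2 * T * VS (uu ℓ a T d.1) (XX κ T d.1) ^ 2
  me : |∫ t in (5 / 4 * T)..(7 / 4 * T), Pd ℓ κ a T d t| ≤ T
  er : ∫ t in (5 / 4 * T)..(7 / 4 * T), |dN a T d t - a / d.1 + Pd ℓ κ a T d t| ≤ (D + 2) * T

lemma facts {ℓ C T0 κ : ℝ} (hℓ : 16 ≤ ℓ) (hC : 0 < C) (hκ : 0 < κ) (hκ8 : κ ≤ 1 / 8)
    (hcomb : Cmb ℓ C T0) (cr2 : S_CR2) {d : ℝ × ℝ} {a : ℝ} (hd : 0 < d.1) (ha : 2 * ℓ * d.1 ≤ a) :
    ∀ᶠ T : ℝ in atTop, Facts ℓ κ a (C * (1 + Real.log (1 / κ))) T d := by
  obtain ⟨lam, c⟩ := d
  simp only at hd ha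
  set D := C * (1 + Real.log (1 / κ)) with hD
  have hlogκ : 0 ≤ Real.log (1 / κ) := by
    apply Real.log_nonneg
    rw [le_div_iff₀ hκ]
    linarith
  have hD0 : 0 < D := by positivity
  have hℓ0 : 0 < ℓ := by linarith
  have ha0 : 0 < a := lt_of_lt_of_le (by positivity) ha
  have hal : 2 * ℓ ≤ a / lam := by
    rw [le_div_iff₀ hd]; linarith
  have hal0 : 0 < a / lam := by positivity
  have hpi := Real.pi_gt_three
  -- the window in mean spacings
  have ht1 : Tendsto (fun T : ℝ => a / lam * (Real.log (T / lam) / Real.log T)) atTop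
      (𝓝 (a / lam)) := by
    have := (ratio_tendsto hd).const_mul (a / lam)
    rwa [mul_one] at this
  have ht2 : Tendsto (fun T : ℝ => 2 / Real.pi ^ 2 * Real.log (a / lam * (Real.log (T / lam) /
      Real.log T))) atTop (𝓝 (2 / Real.pi ^ 2 * Real.log (a / lam))) :=
    ((Real.continuousAt_log hal0.ne').tendsto.comp ht1).const_mul _
  have ht3 : Tendsto (fun T : ℝ => a / lam * (Real.log (T / lam) / Real.log T) *
      Real.log (a / lam * (Real.log (T / lam) / Real.log T))) atTop
      (𝓝 (a / lam * Real.log (a / lam))) :=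
    ht1.mul ((Real.continuousAt_log hal0.ne').tendsto.comp ht1)
  have hTd : Tendsto (fun T : ℝ => T / lam) atTop atTop := tendsto_id.atTop_div_const hd
  have hlg := log_div_tendsto hd
  filter_upwards [hTd.eventually_ge_atTop T0, hTd.eventually_ge_atTop 1,
    ht1.eventually (lt_mem_nhds (show ℓ < a / lam by linarith)),
    Metric.tendsto_nhds.1 ht1 1 one_pos, Metric.tendsto_nhds.1 ht2 1 one_pos,
    ht3.eventually (gt_mem_nhds (show a / lam * Real.log (a / lam) <
      a / lam * Real.log (a / lam) + 1 by linarith)),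
    hlg.eventually_ge_atTop (a / lam * Real.log (a / lam) + 1), hlg.eventually_ge_atTop (8 / κ),
    hlg.eventually_ge_atTop 1, hTd.eventually (lo (|c| / lam + 7)), hTd.eventually gl,
    hTd.eventually (p38 4), eventually_ge_atTop (2 : ℝ)]
    with T g1 g2 g3 g4 g5 g6 g7 g8 g9 g10 g11 g12 g13
  have hT0 : 0 < T := by linarith
  have hL0 : 0 < Real.log T := Real.log_pos (by linarith)
  have hL1 : 0 < Real.log (T / lam) := by linarith
  set aT := a / lam * (Real.log (T / lam) / Real.log T) with haT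
  rw [Real.dist_eq] at g4 g5
  have eh : 2 * Real.pi * aT / Real.log (T / lam) = hh a T / lam := by
    rw [haT, hh]; field_simp
  obtain ⟨i1, m1, w1⟩ := hcomb (T / lam) g1 aT g3.le (by rw [one_mul]; linarith) κ hκ hκ8 (by
    rw [div_le_iff₀ hκ] at g8; linarith)
  rw [← hD, eh] at w1
  rw [← hD] at m1
  have hlp : 0 < Real.log (T / lam) / ℓ := by positivity
  have eT : lam * (T / lam) = T := by field_simp
  have hX3 : 4 * lam * (XK κ (T / lam) : ℝ) ^ 3 ≤ T := by
    have h1 := X3_le g2 hκ8
    have h2 : 4 * (XK κ (T / lam) : ℝ) ^ 3 ≤ T / lam := by linarith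
    have h3 := mul_le_mul_of_nonneg_left h2 hd.le
    linarith
  have hww : ∀ t, dN a T (lam, c) t - a / lam + Pd ℓ κ a T (lam, c) t =
      er ℓ κ (T / lam) aT ((t - c) / lam) + (aT - a / lam) := by
    intro t
    have h1 := er_eq ℓ κ (T / lam) aT ((t - c) / lam)
    rw [eh] at h1
    have h2 : (t - c) / lam + hh a T / lam / 2 = (t + (hh a T / 2 - c)) / lam := by ring
    rw [h2] at h1
    unfold dN Pd uu XX
    simp only
    linarith
  constructor
  · -- the variance
    simp only
    unfold uu XX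
    have h1 := abs_le.1 w1
    have h2 := abs_le.1 g5.le
    rw [abs_le]
    constructor <;> linarith [h1.1, h1.2, h2.1, h2.2]
  · exact two cr2 hlp hd hT0.le hX3
  · exact four hd hκ hκ8 hT0.le g2 g11
  · exact mean hlp hd hX3
  · -- the error
    have hc1 := le_abs_self c
    have hc2 := neg_abs_le c
    have hlt : lam * Real.log (T / lam) + |c| + 7 * lam ≤ T / 8 := by
      have h1 := mul_le_mul_of_nonneg_left g10 hd.le
      have e1 : lam * (Real.log (T / lam) + (|c| / lam + 7)) =
          lam * Real.log (T / lam) + |c| + 7 * lam := by field_simp; ring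
      have e2 : lam * (T / lam / 8) = T / 8 := by field_simp
      rw [e1, e2] at h1
      exact h1
    have hlp2 : 0 < lam * Real.log (T / lam) := by positivity
    have hA' : T / lam + Real.log (T / lam) ≤ (5 / 4 * T - c) / lam := by
      rw [le_div_iff₀ hd]
      have : (T / lam + Real.log (T / lam)) * lam = T + lam * Real.log (T / lam) := by
        field_simp
      rw [this]
      linarith
    have hB' : (7 / 4 * T - c) / lam ≤ 2 * (T / lam) - Real.log (T / lam) - 7 := by
      rw [div_le_iff₀ hd]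
      have : (2 * (T / lam) - Real.log (T / lam) - 7) * lam =
          2 * T - lam * Real.log (T / lam) - 7 * lam := by
        field_simp
      rw [this]
      linarith
    have hAB' : (5 / 4 * T - c) / lam ≤ (7 / 4 * T - c) / lam :=
      div_le_div_of_nonneg_right (by linarith) hd.le
    have hi : ∀ A B : ℝ, IntervalIntegrable (fun s => er ℓ κ (T / lam) aT s) volume A B := by
      intro A B
      have h1 := NZ_ii (hh a T / lam) 0 1 A B one_pos
      have h2 := NZ_ii 0 0 1 A B one_pos
      simp only [sub_zero, div_one, add_zero] at h1 h2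
      have h3 : (fun s => er ℓ κ (T / lam) aT s) = fun s =>
          ((NZ (s + hh a T / lam) : ℝ) - NZ s) - aT +
            PP (uu ℓ a T lam) (XX κ T lam) (s + hh a T / lam / 2) := by
        funext s
        have h1 := er_eq ℓ κ (T / lam) aT s
        rw [eh] at h1
        unfold uu XX
        linarith
      rw [h3]
      have hPc := PP_cont (uu ℓ a T lam) (XX κ T lam)
      exact (((h1.sub h2).sub (continuous_const.intervalIntegrable _ _)).add
        (Continuous.intervalIntegrable (by fun_prop) _ _))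
    have h1 := abs_int_le hAB' hA' hB' i1 (hi _ _).abs m1
    have h0 := sub_int (fun s => |er ℓ κ (T / lam) aT s|) hd (5 / 4 * T) (7 / 4 * T) (-c)
    simp only [← sub_eq_add_neg] at h0
    have h2 := mul_le_mul_of_nonneg_left h1 hd.le
    rw [← h0] at h2
    have e : lam * ((D * (T / lam) + ((7 / 4 * T - c) / lam - (5 / 4 * T - c) / lam)) / 2) =
        (D * T + T / 2) / 2 := by
      field_simp; ring
    rw [e] at h2
    have hE : IntervalIntegrable (fun t => |er ℓ κ (T / lam) aT ((t - c) / lam)|) volume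
        (5 / 4 * T) (7 / 4 * T) := by
      have h3 : (fun t => er ℓ κ (T / lam) aT ((t - c) / lam)) = fun t =>
          dN a T (lam, c) t - a / lam + Pd ℓ κ a T (lam, c) t - (aT - a / lam) := by
        funext t
        linarith [hww t]
      have h4 : IntervalIntegrable (fun t => er ℓ κ (T / lam) aT ((t - c) / lam)) volume
          (5 / 4 * T) (7 / 4 * T) := by
        rw [h3]
        exact (((dN_ii a T (d := (lam, c)) hd _ _).sub (continuous_const.intervalIntegrable _ _)).add
          ((Pd_cont ℓ κ a T (lam, c)).intervalIntegrable _ _)).sub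
          (continuous_const.intervalIntegrable _ _)
      exact h4.abs
    have h5 : ∫ t in (5 / 4 * T)..(7 / 4 * T), |dN a T (lam, c) t - a / lam +
        Pd ℓ κ a T (lam, c) t| ≤
        ∫ t in (5 / 4 * T)..(7 / 4 * T), (|er ℓ κ (T / lam) aT ((t - c) / lam)| + 1) := by
      refine intervalIntegral.integral_mono_on (by linarith) ?_
        (hE.add (continuous_const.intervalIntegrable _ _)) fun t _ => ?_
      · exact (((dN_ii a T (d := (lam, c)) hd _ _).sub (continuous_const.intervalIntegrable _ _)).add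
          ((Pd_cont ℓ κ a T (lam, c)).intervalIntegrable _ _)).abs
      · rw [hww t]
        have := abs_add_le (er ℓ κ (T / lam) aT ((t - c) / lam)) (aT - a / lam)
        show |er ℓ κ (T / lam) aT ((t - c) / lam) + (aT - a / lam)| ≤
          |er ℓ κ (T / lam) aT ((t - c) / lam)| + 1
        linarith
    rw [intervalIntegral.integral_add hE (continuous_const.intervalIntegrable _ _),
      intervalIntegral.integral_const, smul_eq_mul] at h5
    have h6 : 0 < D * T := by positivity
    show ∫ t in (5 / 4 * T)..(7 / 4 * T), |dN a T (lam, c) t - a / lam +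
        Pd ℓ κ a T (lam, c) t| ≤ (D + 2) * T
    linarith

end Pool.Agent.K7.H54.AF
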