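import Pool.Agent.Y743.AF.Cross

/-! MP_0ec205_nt: the correlation at a fixed shift, with a small constant. -/

set_option autoImplicit false

namespace Pool.Agent.K7.H54.AF

open Filter Topology MeasureTheory
open Pool.Agent.Y743.AF (Prm mem_Prm Wp Wp_nonneg rc_dev rc_prime_le VS_eq' S_TW)
open Pool.Agent.Y743.CL (rc VS VS_nonneg)

lemma Wp_le {h : ℝ} (p P : ℕ) (hp : p.Prime) (hpP : p ≤ P) : Wp h p ≤ h ^ 2 * (P : ℝ) ^ 2 := by
  have hp1 : (1 : ℝ) ≤ p := by exact_mod_cast hp.one_le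
  have hlog : 0 ≤ Real.log p := Real.log_nonneg hp1
  have hpi := Real.pi_gt_three
  have h1 : Real.sin (h / 2 * Real.log p) ^ 2 ≤ (h / 2 * Real.log p) ^ 2 := by
    rw [sq_le_sq]
    exact Real.abs_sin_le_abs
  have h2 : 4 / Real.pi ^ 2 ≤ 1 := by
    rw [div_le_one (by positivity)]; nlinarith
  have h3 : Real.log p ≤ P := by
    have := Real.log_le_sub_one_of_pos (show (0 : ℝ) < p by linarith)
    have h4 : (p : ℝ) ≤ P := by exact_mod_cast hpP
    linarith
  unfold Wp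
  calc 4 / Real.pi ^ 2 * (Real.sin (h / 2 * Real.log p) ^ 2 / p)
      ≤ 1 * ((h / 2 * Real.log p) ^ 2 / 1) := by
        apply mul_le_mul h2 _ (by positivity) (by norm_num)
        exact div_le_div₀ (by positivity) h1 one_pos hp1
    _ = h ^ 2 / 4 * Real.log p ^ 2 := by ring
    _ ≤ h ^ 2 / 4 * (P : ℝ) ^ 2 := by
        apply mul_le_mul_of_nonneg_left _ (by positivity)
        exact pow_le_pow_left₀ hlog h3 2
    _ ≤ h ^ 2 * (P : ℝ) ^ 2 := by
        apply mul_le_mul_of_nonneg_right _ (by positivity)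
        linarith [sq_nonneg h]

lemma dev_eps {ε : ℝ} (hε : 0 < ε) (hε1 : ε ≤ 1 / 2) : ∃ C : ℝ, 0 ≤ C ∧ ∀ (l h : ℝ) (X : ℕ),
    100 / ε ≤ l → (∀ p ∈ Prm X, Real.log p ≤ ε / 100 * l) →
    ∑ p ∈ Prm X, (Wp h p - rc l h p ^ 2) ≤ 2 * ε * VS (rc l h) X + C * h ^ 2 := by
  set P : ℕ := ⌈100 / ε⌉₊ with hP
  have hPr : 100 / ε ≤ P := Nat.le_ceil _
  refine ⟨66 * (P : ℝ) ^ 3, by positivity, fun l h X hl hX => ?_⟩
  have h200 : 200 ≤ 100 / ε := by
    rw [le_div_iff₀ hε]; linarith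
  have hl0 : 0 < l := by linarith
  have hεl : 100 ≤ ε * l := by
    rw [div_le_iff₀ hε] at hl; linarith
  have hpt : ∀ p ∈ Prm X, Wp h p - rc l h p ^ 2 ≤
      96 / 100 * ε * Wp h p + (if p < P then 33 * (h ^ 2 * (P : ℝ) ^ 2) else 0) := by
    intro p hp
    have hpp := (mem_Prm.1 hp).1
    have hlp := hX p hp
    have hlog : 0 ≤ Real.log p := Real.log_nonneg (by exact_mod_cast hpp.one_le)
    have h1 := rc_dev (l := l) (by linarith) h p hpp (by
      refine hlp.trans ?_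
      have : ε / 100 * l ≤ 1 / 2 * l := mul_le_mul_of_nonneg_right (by linarith) hl0.le
      linarith)
    have hW := Wp_nonneg h p
    have h2 : (1 + Real.log p) / l ≤ 2 * ε / 100 := by
      rw [div_le_iff₀ hl0]
      linarith
    have hpos : (0 : ℝ) < p := by exact_mod_cast hpp.pos
    have e : 4 / Real.pi ^ 2 * (Real.sin (h / 2 * Real.log p) ^ 2 / p) = Wp h p := rfl
    rw [e] at h1
    split_ifs with h3
    · have h4 := Wp_le (h := h) p P hpp h3.le
      have h5 : (1 : ℝ) / p ≤ 1 := by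
        rw [div_le_one hpos]
        exact_mod_cast hpp.one_le
      have h6 : 32 * ((1 + Real.log p) / l + 1 / p) * Wp h p ≤ 32 * (2 * ε / 100 + 1) * Wp h p := by
        apply mul_le_mul_of_nonneg_right _ hW
        linarith
      have h7 : 0 ≤ ε * Wp h p := by positivity
      linarith
    · have h5 : (1 : ℝ) / p ≤ ε / 100 := by
        push Not at h3
        have h6 : (P : ℝ) ≤ p := by exact_mod_cast h3
        rw [div_le_iff₀ hpos]
        have h7 : 100 / ε ≤ p := hPr.trans h6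
        rw [div_le_iff₀ hε] at h7
        linarith
      have h6 : 32 * ((1 + Real.log p) / l + 1 / p) * Wp h p ≤ 32 * (2 * ε / 100 + ε / 100) * Wp h p := by
        apply mul_le_mul_of_nonneg_right _ hW
        linarith
      linarith
  have h1 := Finset.sum_le_sum hpt
  rw [Finset.sum_add_distrib, ← Finset.mul_sum] at h1
  have h2 : ∑ p ∈ Prm X, (if p < P then 33 * (h ^ 2 * (P : ℝ) ^ 2) else (0 : ℝ)) ≤
      33 * (P : ℝ) ^ 3 * h ^ 2 := by
    rw [← Finset.sum_filter]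
    have h3 : (Prm X).filter (fun p => p < P) ⊆ Finset.range P := by
      intro p hp
      rw [Finset.mem_filter] at hp
      exact Finset.mem_range.2 hp.2
    have h4 := Finset.card_le_card h3
    rw [Finset.card_range] at h4
    rw [Finset.sum_const, nsmul_eq_mul]
    have h5 : (((Prm X).filter (fun p => p < P)).card : ℝ) ≤ P := by exact_mod_cast h4
    have h6 := mul_le_mul_of_nonneg_right h5 (show 0 ≤ 33 * (h ^ 2 * (P : ℝ) ^ 2) by positivity)
    linarith
  have h3 : ∑ p ∈ Prm X, (Wp h p - rc l h p ^ 2) = ∑ p ∈ Prm X, Wp h p - VS (rc l h) X := by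
    rw [VS_eq', Finset.sum_sub_distrib]
  rw [h3] at h1 ⊢
  have h4 : 0 ≤ VS (rc l h) X := VS_nonneg _ _
  set S := ∑ p ∈ Prm X, Wp h p with hS
  have hS0 : 0 ≤ S := Finset.sum_nonneg fun p _ => Wp_nonneg h p
  set V := VS (rc l h) X
  set e := 33 * (P : ℝ) ^ 3 * h ^ 2 with he
  have he0 : 0 ≤ e := by positivity
  have h5 : S - V ≤ 96 / 100 * ε * S + e := by linarith
  have h6 : ε * S ≤ 1 / 2 * S := mul_le_mul_of_nonneg_right hε1 hS0
  have h7 : S ≤ 2 * (V + e) := by linarith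
  have h8 : ε * S ≤ ε * (2 * (V + e)) := mul_le_mul_of_nonneg_left h7 hε.le
  have h9 : ε * e ≤ 1 / 2 * e := mul_le_mul_of_nonneg_right hε1 he0
  have h10 : 0 ≤ ε * V := by positivity
  have h11 : 66 * (P : ℝ) ^ 3 * h ^ 2 = 2 * e := by rw [he]; ring
  rw [h11]
  linarith

theorem cross_eps (tw : S_TW) {ε M c : ℝ} (hε : 0 < ε) (hε1 : ε ≤ 1 / 2) (hc : c ≠ 0) :
    ∃ h0 : ℝ, 0 < h0 ∧ ∀ (l h : ℝ) (X : ℕ), 100 / ε ≤ l → 0 < h → h < h0 → h * Real.log X ≤ M →
      (∀ p ∈ Prm X, Real.log p ≤ ε / 100 * l) →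
      |∑ p ∈ Prm X, rc l h p * rc l h p * Real.cos (c * Real.log p)| ≤
        2 * ε * VS (rc l h) X + ε := by
  obtain ⟨h1, hh1, htw⟩ := tw c M (ε / 2) hc (by positivity)
  obtain ⟨C, hC, hdev⟩ := dev_eps hε hε1
  have hpi := Real.pi_gt_three
  refine ⟨min h1 (min 1 (ε / (2 * (C + 1)))), by positivity, fun l h X hl hh0 hh hM hX => ?_⟩
  have k1 : h < h1 := hh.trans_le (min_le_left _ _)
  have k2 : h < 1 := hh.trans_le ((min_le_right _ _).trans (min_le_left _ _))
  have k3 : h < ε / (2 * (C + 1)) := hh.trans_le ((min_le_right _ _).trans (min_le_right _ _))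
  rw [lt_div_iff₀ (by positivity)] at k3
  have hl0 : 0 < l := lt_of_lt_of_le (by positivity) hl
  have htw1 := htw h hh0 k1 X hM
  have hd := hdev l h X hl hX
  have e1 : ∑ p ∈ Prm X, rc l h p * rc l h p * Real.cos (c * Real.log p) =
      ∑ p ∈ Prm X, Wp h p * Real.cos (c * Real.log p) -
      ∑ p ∈ Prm X, (Wp h p - rc l h p ^ 2) * Real.cos (c * Real.log p) := by
    rw [← Finset.sum_sub_distrib]
    refine Finset.sum_congr rfl fun p _ => ?_
    ring
  have h2 : |∑ p ∈ Prm X, Wp h p * Real.cos (c * Real.log p)| ≤ ε / 2 := by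
    have e2 : ∑ p ∈ Prm X, Wp h p * Real.cos (c * Real.log p) = 4 / Real.pi ^ 2 *
        ∑ p ∈ Prm X, Real.sin (h / 2 * Real.log p) ^ 2 / p * Real.cos (c * Real.log p) := by
      rw [Finset.mul_sum]
      refine Finset.sum_congr rfl fun p _ => ?_
      unfold Wp
      ring
    have h3 : 4 / Real.pi ^ 2 ≤ 1 := by
      rw [div_le_one (by positivity)]; nlinarith
    rw [e2, abs_mul, abs_of_nonneg (show 0 ≤ 4 / Real.pi ^ 2 by positivity)]
    calc 4 / Real.pi ^ 2 * |∑ p ∈ Prm X, Real.sin (h / 2 * Real.log p) ^ 2 / p *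
          Real.cos (c * Real.log p)| ≤ 1 * (ε / 2) :=
          mul_le_mul h3 htw1 (abs_nonneg _) (by norm_num)
      _ = ε / 2 := one_mul _
  have h3 : |∑ p ∈ Prm X, (Wp h p - rc l h p ^ 2) * Real.cos (c * Real.log p)| ≤
      ∑ p ∈ Prm X, (Wp h p - rc l h p ^ 2) := by
    refine (Finset.abs_sum_le_sum_abs _ _).trans (Finset.sum_le_sum fun p hp => ?_)
    have h4 : 0 ≤ Wp h p - rc l h p ^ 2 := by
      have := rc_prime_le hl0 h p (mem_Prm.1 hp).1
      unfold Wp
      linarith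
    rw [abs_mul, abs_of_nonneg h4]
    exact mul_le_of_le_one_right h4 (Real.abs_cos_le_one _)
  rw [e1]
  have h4 : C * h ^ 2 ≤ ε / 2 := by
    have h5 : h ^ 2 ≤ h := by nlinarith
    have h6 : C * h ^ 2 ≤ (C + 1) * h := by
      have := mul_le_mul_of_nonneg_left h5 hC
      linarith
    linarith
  have h5 := abs_sub (∑ p ∈ Prm X, Wp h p * Real.cos (c * Real.log p))
    (∑ p ∈ Prm X, (Wp h p - rc l h p ^ 2) * Real.cos (c * Real.log p))
  linarith

end Pool.Agent.K7.H54.AF
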