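import Pool.Agent.K7.H54.AF.One

/-! MP_0ec205_nt: the correlation of the prime polynomials of two affine copies. -/

set_option autoImplicit false

namespace Pool.Agent.K7.H54.AF

open Filter Topology MeasureTheory
open SG (NZ)
open Pool.Agent.Y743.AF (Prm mem_Prm PP PP_cont VS_eq' S_TW S_CR1 S_CR2 rc_abs_le rc_abs_le' NZ_ii
  er_eq abs_int_le m4 sub_int)
open Pool.Agent.Y743.CL (rc VS VS_nonneg XK rc_bd er comb)

/-- extension of a coefficient sequence by zero -/
noncomputable def ext (u : ℕ → ℝ) (X : ℕ) (p : ℕ) : ℝ := if p ≤ X then u p else 0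

lemma ext_le (u : ℕ → ℝ) (X p : ℕ) : |ext u X p| ≤ |u p| := by
  unfold ext
  split_ifs
  · exact le_rfl
  · rw [abs_zero]; exact abs_nonneg _

lemma PP_ext (u : ℕ → ℝ) {X Y : ℕ} (h : X ≤ Y) (t : ℝ) : PP (ext u X) Y t = PP u X t := by
  unfold PP
  symm
  have h1 : ∑ p ∈ Prm X, u p * Real.cos (t * Real.log p) =
      ∑ p ∈ Prm X, ext u X p * Real.cos (t * Real.log p) := by
    refine Finset.sum_congr rfl fun p hp => ?_
    unfold ext
    rw [if_pos (mem_Prm.1 hp).2]
  rw [h1]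
  refine Finset.sum_subset (fun p hp => ?_) fun p hp hp' => ?_
  · rw [mem_Prm] at hp ⊢
    exact ⟨hp.1, hp.2.trans h⟩
  · have h2 : ¬ p ≤ X := fun h3 => hp' (mem_Prm.2 ⟨(mem_Prm.1 hp).1, h3⟩)
    unfold ext
    rw [if_neg h2, zero_mul]

lemma hh_tendsto (a : ℝ) : Tendsto (fun T : ℝ => hh a T) atTop (𝓝 0) :=
  Real.tendsto_log_atTop.const_div_atTop _

lemma hh_div_tendsto (a lam : ℝ) : Tendsto (fun T : ℝ => hh a T / lam) atTop (𝓝 0) := by
  have := (hh_tendsto a).div_const lam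
  rwa [zero_div] at this

lemma log_X_le {κ T : ℝ} (hT : 0 < T) {p : ℕ} (hp1 : 1 ≤ p) (hp : p ≤ XK κ T) :
    Real.log p ≤ κ * Real.log T := by
  have h1 : (p : ℝ) ≤ T ^ κ := by
    have h2 : (XK κ T : ℝ) ≤ T ^ κ := Nat.floor_le (by positivity)
    have h3 : (p : ℝ) ≤ XK κ T := by exact_mod_cast hp
    linarith
  have h2 := Real.log_le_log (by exact_mod_cast hp1) h1
  rwa [Real.log_rpow hT] at h2

/-- equal slopes -/
lemma pair_eq {ℓ κ a ε lam c c' : ℝ} (tw : S_TW) (cr2 : S_CR2) (hℓ : 16 ≤ ℓ) (hκ : 0 < κ)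
    (hκ8 : κ ≤ 1 / 8) (hκε : κ * ℓ ≤ ε / 100) (hε : 0 < ε) (hε1 : ε ≤ 1 / 2) (ha : 0 < a)
    (hlam : 0 < lam) (hc : c ≠ c') :
    ∀ᶠ T : ℝ in atTop, |∫ t in (5 / 4 * T)..(7 / 4 * T), Pd ℓ κ a T (lam, c) t *
      Pd ℓ κ a T (lam, c') t| ≤ ε * T * (1 + VS (uu ℓ a T lam) (XX κ T lam)) := by
  have hℓ0 : 0 < ℓ := by linarith
  have hpi := Real.pi_gt_three
  have hc' : (c' - c) / lam ≠ 0 := div_ne_zero (sub_ne_zero.2 (Ne.symm hc)) hlam.ne'
  obtain ⟨h0, hh0, hcr⟩ := cross_eps tw (ε := ε) (M := 2 * Real.pi * a / lam * κ + 1) hε hε1 hc'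
  have hTd : Tendsto (fun T : ℝ => T / lam) atTop atTop := tendsto_id.atTop_div_const hlam
  have hlg := log_div_tendsto hlam
  have hM : Tendsto (fun T : ℝ => 2 * Real.pi * a / lam * κ * (Real.log (T / lam) / Real.log T)) atTop
      (𝓝 (2 * Real.pi * a / lam * κ)) := by
    have := (ratio_tendsto hlam).const_mul (2 * Real.pi * a / lam * κ)
    rwa [mul_one] at this
  filter_upwards [(hh_div_tendsto a lam).eventually (gt_mem_nhds hh0), hTd.eventually_ge_atTop 1,
    hlg.eventually_ge_atTop (100 / ε * ℓ), hTd.eventually (p38 (8 / ε)),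
    hM.eventually (gt_mem_nhds (lt_add_one _)), eventually_ge_atTop (2 : ℝ)] with T g1 g2 g3 g4 g5 g6
  have hT0 : 0 < T := by linarith
  have hL0 : 0 < Real.log T := Real.log_pos (by linarith)
  have hL1 : 0 < Real.log (T / lam) := lt_of_lt_of_le (by positivity) g3
  have hTl : 0 < T / lam := by positivity
  have hhp : 0 < hh a T / lam := by unfold hh; positivity
  have hlp : 0 < Real.log (T / lam) / ℓ := by positivity
  set u := uu ℓ a T lam with hu
  set X := XX κ T lam with hX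
  have hub : ∀ n, |u n| ≤ 1 := rc1 hlp _
  have h1 := hcr (Real.log (T / lam) / ℓ) (hh a T / lam) X (by
      rw [le_div_iff₀ hℓ0]; exact g3) hhp g1 (by
      rcases Nat.eq_zero_or_pos X with h1 | h1
      · rw [h1]; simp
        have : 0 < 2 * Real.pi * a / lam * κ := by positivity
        linarith
      · have h2 := log_X_le hTl h1 (le_refl X)
        have h3 := mul_le_mul_of_nonneg_left h2 hhp.le
        refine h3.trans (le_trans (le_of_eq ?_) g5.le)
        unfold hh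
        field_simp) (by
      intro p hp
      obtain ⟨hp1, hp2⟩ := mem_Prm.1 hp
      refine (log_X_le hTl hp1.one_le hp2).trans ?_
      have : κ * Real.log (T / lam) = (κ * ℓ) * (Real.log (T / lam) / ℓ) := by field_simp
      rw [this]
      exact mul_le_mul_of_nonneg_right hκε hlp.le)
  have eu : rc (Real.log (T / lam) / ℓ) (hh a T / lam) = u := rfl
  rw [eu] at h1
  set b := (hh a T / 2 - c) / lam with hb
  set b' := (hh a T / 2 - c') / lam with hb'
  have hAB' : (5 / 4 * T + 0) / lam ≤ (7 / 4 * T + 0) / lam :=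
    div_le_div_of_nonneg_right (by linarith) hlam.le
  have h2 := cr2 X u u hub hub ((5 / 4 * T + 0) / lam) ((7 / 4 * T + 0) / lam) b b' hAB'
  have ebb : b - b' = (c' - c) / lam := by rw [hb, hb']; field_simp; ring
  rw [ebb] at h2
  have h3 := sub_int (fun s => PP u X (s + b) * PP u X (s + b')) hlam (5 / 4 * T) (7 / 4 * T) 0
  have h4 : ∫ t in (5 / 4 * T)..(7 / 4 * T), Pd ℓ κ a T (lam, c) t * Pd ℓ κ a T (lam, c') t =
      ∫ t in (5 / 4 * T)..(7 / 4 * T), PP u X ((t + 0) / lam + b) * PP u X ((t + 0) / lam + b') := by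
    refine intervalIntegral.integral_congr fun t _ => ?_
    have e1 : (t + (hh a T / 2 - c)) / lam = (t + 0) / lam + b := by rw [hb]; ring
    have e2 : (t + (hh a T / 2 - c')) / lam = (t + 0) / lam + b' := by rw [hb']; ring
    simp only [Pd, e1, e2, ← hu, ← hX]
  rw [h4, h3]
  have h5 : (∫ t in ((5 / 4 * T + 0) / lam)..((7 / 4 * T + 0) / lam),
      (∑ p ∈ Prm X, u p * Real.cos ((t + b) * Real.log p)) *
      (∑ q ∈ Prm X, u q * Real.cos ((t + b') * Real.log q))) =
      ∫ s in ((5 / 4 * T + 0) / lam)..((7 / 4 * T + 0) / lam), PP u X (s + b) * PP u X (s + b') := rfl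
  rw [h5] at h2
  set J := ∫ s in ((5 / 4 * T + 0) / lam)..((7 / 4 * T + 0) / lam), PP u X (s + b) * PP u X (s + b')
  set S := ∑ p ∈ Prm X, u p * u p * Real.cos ((c' - c) / lam * Real.log p)
  have h6 : lam * J = lam * (J - ((7 / 4 * T + 0) / lam - (5 / 4 * T + 0) / lam) / 2 * S) +
      T / 4 * S := by
    field_simp; ring
  rw [h6]
  refine (abs_add_le _ _).trans ?_
  rw [abs_mul, abs_of_pos hlam, abs_mul (T / 4), abs_of_pos (show 0 < T / 4 by positivity)]
  have h7 := mul_le_mul_of_nonneg_left h2 hlam.le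
  have h8 := mul_le_mul_of_nonneg_left h1 (show 0 ≤ T / 4 by positivity)
  have h9 : lam * (4 * (X : ℝ) ^ 3) ≤ ε * T / 2 := by
    have k1 := X3_le (κ := κ) g2 hκ8
    have k1' : (X : ℝ) ^ 3 ≤ (T / lam) ^ (3 / 8 : ℝ) := k1
    have k2 : 8 / ε * (X : ℝ) ^ 3 ≤ T / lam :=
      (mul_le_mul_of_nonneg_left k1' (by positivity)).trans g4
    have k3 := mul_le_mul_of_nonneg_left k2 (show 0 ≤ ε * lam / 2 by positivity)
    have e1 : ε * lam / 2 * (8 / ε * (X : ℝ) ^ 3) = lam * (4 * (X : ℝ) ^ 3) := by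
      field_simp; ring
    have e2 : ε * lam / 2 * (T / lam) = ε * T / 2 := by field_simp
    rw [e1, e2] at k3
    exact k3
  have hV := VS_nonneg u X
  have h10 : 0 ≤ ε * T * VS u X := by positivity
  have h11 : 0 ≤ ε * T := by positivity
  linarith

/-- different slopes -/
lemma pair_ne {ℓ κ a ε lam lam' c c' : ℝ} (cr1 : S_CR1) (hℓ : 16 ≤ ℓ) (hκ : 0 < κ)
    (hκ16 : κ ≤ 1 / 16) (hε : 0 < ε) (ha : 0 < a)
    (hlam : 0 < lam) (hlam' : 0 < lam') (hc : lam ≠ lam') :
    ∀ᶠ T : ℝ in atTop, |∫ t in (5 / 4 * T)..(7 / 4 * T), Pd ℓ κ a T (lam, c) t *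
      Pd ℓ κ a T (lam', c') t| ≤ ε * T := by
  have hℓ0 : 0 < ℓ := by linarith
  have hpi := Real.pi_gt_three
  set r := lam' / lam with hr
  have hr0 : 0 < r := by positivity
  have hr1 : r ≠ 1 := by
    rw [hr, Ne, div_eq_one_iff_eq hlam.ne']
    exact fun h => hc h.symm
  obtain ⟨η, T1, hη, hT1, hcr⟩ := cr1 r ε hr0 hr1 hε
  have hTd : Tendsto (fun T : ℝ => T / lam) atTop atTop := tendsto_id.atTop_div_const hlam
  have hTd' : Tendsto (fun T : ℝ => T / lam') atTop atTop := tendsto_id.atTop_div_const hlam'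
  have hlg := log_div_tendsto hlam
  have hlg' := log_div_tendsto hlam'
  filter_upwards [(hh_div_tendsto a lam).eventually (gt_mem_nhds hη),
    (hh_div_tendsto a lam').eventually (gt_mem_nhds hη), hTd.eventually_ge_atTop T1,
    hTd.eventually_ge_atTop 1, hTd'.eventually_ge_atTop 1, hlg.eventually_gt_atTop 0,
    hlg'.eventually_gt_atTop 0, eventually_ge_atTop (2 : ℝ),
    eventually_ge_atTop (lam ^ 2 / lam')] with T g1 g2 g3 g4 g5 g6 g7 g8 g9
  have hT0 : 0 < T := by linarith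
  have hL0 : 0 < Real.log T := Real.log_pos (by linarith)
  have hhp : 0 < hh a T / lam := by unfold hh; positivity
  have hhp' : 0 < hh a T / lam' := by unfold hh; positivity
  have hlp : 0 < Real.log (T / lam) / ℓ := by positivity
  have hlp' : 0 < Real.log (T / lam') / ℓ := by positivity
  set u := uu ℓ a T lam with hu
  set v := uu ℓ a T lam' with hv
  set X1 := XX κ T lam with hX1
  set X2 := XX κ T lam' with hX2
  set X := max X1 X2 with hX
  have hXle : (X : ℝ) ≤ (T / lam) ^ (1 / 8 : ℝ) := by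
    rw [hX, Nat.cast_max]
    refine max_le (X_le g4 (by linarith)) ?_
    have k1 : (X2 : ℝ) ≤ (T / lam') ^ κ := Nat.floor_le (by positivity)
    have k2 : (T / lam') ^ κ ≤ (T / lam') ^ (1 / 16 : ℝ) :=
      Real.rpow_le_rpow_of_exponent_le g5 hκ16
    have k3 : T / lam' ≤ (T / lam) ^ 2 := by
      rw [div_le_iff₀ hlam'] at g9 ⊢
      rw [div_pow, div_mul_eq_mul_div, le_div_iff₀ (by positivity)]
      nlinarith
    have k4 : (T / lam') ^ (1 / 16 : ℝ) ≤ ((T / lam) ^ 2) ^ (1 / 16 : ℝ) :=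
      Real.rpow_le_rpow (by positivity) k3 (by norm_num)
    have k5 : ((T / lam) ^ 2) ^ (1 / 16 : ℝ) = (T / lam) ^ (1 / 8 : ℝ) := by
      rw [← Real.rpow_natCast, ← Real.rpow_mul (by positivity)]
      norm_num
    linarith
  have h1 := hcr (T / lam) g3 X hXle (ext u X1) (ext v X2) (fun p hp => by
      have k1 := ext_le u X1 p
      have k2 := rc_abs_le hlp (hh a T / lam) p hp
      have k3 := rc_abs_le' hlp hhp.le p hp
      have k4 : hh a T / lam * Real.log p ≤ η * Real.log p :=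
        mul_le_mul_of_nonneg_right g1.le (Real.log_nonneg (by exact_mod_cast hp.one_le))
      exact ⟨k1.trans k2, (k1.trans k3).trans k4⟩) (fun p hp => by
      have k1 := ext_le v X2 p
      have k2 := rc_abs_le hlp' (hh a T / lam') p hp
      have k3 := rc_abs_le' hlp' hhp'.le p hp
      have k4 : hh a T / lam' * Real.log p ≤ η * Real.log p :=
        mul_le_mul_of_nonneg_right g2.le (Real.log_nonneg (by exact_mod_cast hp.one_le))
      exact ⟨k1.trans k2, (k1.trans k3).trans k4⟩)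
    ((5 / 4 * T + 0) / lam) ((7 / 4 * T + 0) / lam) ((hh a T / 2 - c) / lam)
    ((hh a T / 2 - c') / lam) (div_le_div_of_nonneg_right (by linarith) hlam.le) (by
      rw [← sub_div]
      exact div_le_div_of_nonneg_right (by linarith) hlam.le)
  set b := (hh a T / 2 - c) / lam with hb
  set b' := (hh a T / 2 - c') / lam with hb'
  have h3 := sub_int (fun s => PP u X1 (s + b) * PP v X2 ((s + b') / r)) hlam (5 / 4 * T)
    (7 / 4 * T) 0
  have h4 : ∫ t in (5 / 4 * T)..(7 / 4 * T), Pd ℓ κ a T (lam, c) t * Pd ℓ κ a T (lam', c') t =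
      ∫ t in (5 / 4 * T)..(7 / 4 * T), PP u X1 ((t + 0) / lam + b) *
        PP v X2 (((t + 0) / lam + b') / r) := by
    refine intervalIntegral.integral_congr fun t _ => ?_
    have e1 : (t + (hh a T / 2 - c)) / lam = (t + 0) / lam + b := by rw [hb]; ring
    have e2 : (t + (hh a T / 2 - c')) / lam' = ((t + 0) / lam + b') / r := by
      rw [hb', hr]; field_simp; ring
    simp only [Pd, e1, e2, ← hu, ← hv, ← hX1, ← hX2]
  rw [h4, h3]
  have h5 : (∫ t in ((5 / 4 * T + 0) / lam)..((7 / 4 * T + 0) / lam),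
      (∑ p ∈ Prm X, ext u X1 p * Real.cos ((t + b) * Real.log p)) *
      (∑ q ∈ Prm X, ext v X2 q * Real.cos ((t + b') / r * Real.log q))) =
      ∫ s in ((5 / 4 * T + 0) / lam)..((7 / 4 * T + 0) / lam),
        PP u X1 (s + b) * PP v X2 ((s + b') / r) := by
    refine intervalIntegral.integral_congr fun t _ => ?_
    show PP (ext u X1) X (t + b) * PP (ext v X2) X ((t + b') / r) = _
    rw [PP_ext u (le_max_left _ _), PP_ext v (le_max_right _ _)]
  rw [h5] at h1
  rw [abs_mul, abs_of_pos hlam]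
  have h6 := mul_le_mul_of_nonneg_left h1 hlam.le
  have e : lam * (ε * (T / lam)) = ε * T := by field_simp
  linarith

/-- the correlation of two different affine copies -/
lemma pair {ℓ κ a ε : ℝ} (tw : S_TW) (cr1 : S_CR1) (cr2 : S_CR2) (hℓ : 16 ≤ ℓ) (hκ : 0 < κ)
    (hκ16 : κ ≤ 1 / 16) (hκε : κ * ℓ ≤ ε / 100) (hε : 0 < ε) (hε1 : ε ≤ 1 / 2) (ha : 0 < a)
    {d e : ℝ × ℝ} (hd : 0 < d.1) (he : 0 < e.1) (hde : d ≠ e) :
    ∀ᶠ T : ℝ in atTop, |∫ t in (5 / 4 * T)..(7 / 4 * T), Pd ℓ κ a T d t *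
      Pd ℓ κ a T e t| ≤ ε * T * (1 + VS (uu ℓ a T d.1) (XX κ T d.1)) := by
  obtain ⟨lam, c⟩ := d
  obtain ⟨lam', c'⟩ := e
  simp only at hd he
  by_cases h : lam = lam'
  · subst h
    have hc : c ≠ c' := fun h => hde (by rw [h])
    exact pair_eq tw cr2 hℓ hκ (by linarith) hκε hε hε1 ha hd hc
  · filter_upwards [pair_ne (c := c) (c' := c') cr1 hℓ hκ hκ16 hε ha hd he h,
      eventually_ge_atTop (0 : ℝ)] with T h1 h2
    have hV := VS_nonneg (uu ℓ a T lam) (XX κ T lam)
    have h3 : 0 ≤ ε * T * VS (uu ℓ a T lam) (XX κ T lam) := by positivity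
    refine h1.trans ?_
    show ε * T ≤ ε * T * (1 + VS (uu ℓ a T lam) (XX κ T lam))
    linarith

end Pool.Agent.K7.H54.AF
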