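import Pool.Agent.K7.H54.AF.Copy
import Pool.Agent.K7.H54.AF.Pair
import Pool.Agent.K7.H54.AF.Abs

/-! MP_0ec205_nt: the numbers of points of finitely many affine copies of the set of ordinates in
windows are quantitatively linearly independent in `L¹`. -/

set_option autoImplicit false

namespace Pool.Agent.K7.H54.AF

open Filter Topology MeasureTheory
open SG (NZ)
open Pool.Agent.Y743.AF (Prm mem_Prm PP PP_cont VS_eq' S_TW S_CR1 S_CR2 rc_abs_le rc_abs_le' NZ_ii
  er_eq abs_int_le m4 sub_int)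
open Pool.Agent.Y743.CL (rc VS VS_nonneg XK rc_bd er comb)

lemma sum_abs_le {ι : Type*} (D : Finset ι) (w : ι → ℝ) :
    ∑ d ∈ D, |w d| ≤ D.card * Real.sqrt (∑ d ∈ D, w d ^ 2) := by
  have h : ∀ d ∈ D, |w d| ≤ Real.sqrt (∑ d ∈ D, w d ^ 2) := by
    intro d hd
    rw [← Real.sqrt_sq_eq_abs]
    exact Real.sqrt_le_sqrt (Finset.single_le_sum (f := fun d => w d ^ 2)
      (fun e _ => sq_nonneg _) hd)
  have := Finset.sum_le_sum h
  rwa [Finset.sum_const, nsmul_eq_mul] at this

lemma int_sum_abs {ι : Type*} (D : Finset ι) (w : ι → ℝ) (g : ι → ℝ → ℝ) {A B M : ℝ} (hAB : A ≤ B)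
    (hg : ∀ d ∈ D, IntervalIntegrable (g d) volume A B) (hM : 0 ≤ M)
    (h : ∀ d ∈ D, ∫ t in A..B, |g d t| ≤ M) :
    ∫ t in A..B, |∑ d ∈ D, w d * g d t| ≤ D.card * Real.sqrt (∑ d ∈ D, w d ^ 2) * M := by
  have hs : ∀ d ∈ D, IntervalIntegrable (fun t => w d * g d t) volume A B :=
    fun d hd => (hg d hd).const_mul _
  have hs' : ∀ d ∈ D, IntervalIntegrable (fun t => |w d| * |g d t|) volume A B :=
    fun d hd => (hg d hd).abs.const_mul _
  have e1 : (∑ d ∈ D, fun t => w d * g d t) = fun t => ∑ d ∈ D, w d * g d t := by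
    funext t; exact Finset.sum_apply t D _
  have e2 : (∑ d ∈ D, fun t => |w d| * |g d t|) = fun t => ∑ d ∈ D, |w d| * |g d t| := by
    funext t; exact Finset.sum_apply t D _
  have i1 : IntervalIntegrable (fun t => ∑ d ∈ D, w d * g d t) volume A B := by
    have := IntervalIntegrable.sum D hs
    rwa [e1] at this
  have i2 : IntervalIntegrable (fun t => ∑ d ∈ D, |w d| * |g d t|) volume A B := by
    have := IntervalIntegrable.sum D hs'
    rwa [e2] at this
  have h1 : ∫ t in A..B, |∑ d ∈ D, w d * g d t| ≤ ∫ t in A..B, ∑ d ∈ D, |w d| * |g d t| := by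
    refine intervalIntegral.integral_mono_on hAB i1.abs i2 fun t _ => ?_
    refine (Finset.abs_sum_le_sum_abs _ _).trans (le_of_eq ?_)
    exact Finset.sum_congr rfl fun d _ => abs_mul _ _
  refine h1.trans ?_
  rw [intervalIntegral.integral_finsetSum hs']
  calc ∑ d ∈ D, ∫ t in A..B, |w d| * |g d t| ≤ ∑ d ∈ D, |w d| * M := by
        refine Finset.sum_le_sum fun d hd => ?_
        rw [intervalIntegral.integral_const_mul]
        exact mul_le_mul_of_nonneg_left (h d hd) (abs_nonneg _)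
    _ = (∑ d ∈ D, |w d|) * M := by rw [Finset.sum_mul]
    _ ≤ D.card * Real.sqrt (∑ d ∈ D, w d ^ 2) * M :=
        mul_le_mul_of_nonneg_right (sum_abs_le D w) hM

/-- an upper bound for the mean of `|f|` -/
lemma l1_up {f : ℝ → ℝ} (hf : Continuous f) {A B s : ℝ} (hAB : A ≤ B) (hs : 0 < s) :
    ∫ t in A..B, |f t| ≤ (B - A) * (s / 2) + 1 / (2 * s) * ∫ t in A..B, f t ^ 2 := by
  have h1 : ∫ t in A..B, |f t| ≤ ∫ t in A..B, (s / 2 + 1 / (2 * s) * f t ^ 2) := by
    refine intervalIntegral.integral_mono_on hAB (Continuous.intervalIntegrable (by fun_prop) _ _)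
      (Continuous.intervalIntegrable (by fun_prop) _ _) fun t _ => ?_
    have h2 : s / 2 + 1 / (2 * s) * f t ^ 2 - |f t| = (|f t| - s) ^ 2 / (2 * s) := by
      rw [← sq_abs (f t)]
      field_simp; ring
    have h3 : 0 ≤ (|f t| - s) ^ 2 / (2 * s) := by positivity
    linarith
  rw [intervalIntegral.integral_add (continuous_const.intervalIntegrable _ _)
    (Continuous.intervalIntegrable (by fun_prop) _ _), intervalIntegral.integral_const, smul_eq_mul,
    intervalIntegral.integral_const_mul] at h1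
  exact h1

theorem main (tw : S_TW) (cr1 : S_CR1) (cr2 : S_CR2) (D : Finset (ℝ × ℝ)) (hD : ∀ d ∈ D, 0 < d.1) :
    ∀ᶠ a : ℝ in atTop, ∀ᶠ T : ℝ in atTop, ∀ w : ℝ × ℝ → ℝ,
      (∀ b : ℝ, Real.sqrt (Real.log a) * Real.sqrt (∑ d ∈ D, w d ^ 2) * T / (10000 * D.card ^ 2) ≤
        ∫ t in (5 / 4 * T)..(7 / 4 * T), |∑ d ∈ D, w d * dN a T d t - b|) ∧
      ∫ t in (5 / 4 * T)..(7 / 4 * T), |∑ d ∈ D, w d * dN a T d t - ∑ d ∈ D, w d * (a / d.1)| ≤
        Real.sqrt (Real.log a) * Real.sqrt (∑ d ∈ D, w d ^ 2) * T := by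
  classical
  rcases D.eq_empty_or_nonempty with hD0 | hD0
  · subst hD0
    refine Eventually.of_forall fun a => ?_
    filter_upwards [eventually_ge_atTop (0 : ℝ)] with T hT w
    refine ⟨fun b => ?_, ?_⟩
    · simp only [Finset.sum_empty, Real.sqrt_zero, mul_zero, zero_mul, zero_div]
      exact intervalIntegral.integral_nonneg (by linarith) fun t _ => abs_nonneg _
    · simp
  obtain ⟨ℓ, C, T0, hℓ, hC, hT0, hcomb⟩ := comb 1 le_rfl
  have hcomb' : Cmb ℓ C T0 := hcomb
  set k : ℝ := (D.card : ℝ) with hk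
  have hk1 : 1 ≤ k := by
    rw [hk]
    exact_mod_cast hD0.card_pos
  have hk0 : 0 < k := by linarith
  have hℓ0 : 0 < ℓ := by linarith
  have hpi := Real.pi_gt_d2
  have hpi4 := Real.pi_lt_d2
  set ε : ℝ := 1 / (96 * k) with hε
  have hε0 : 0 < ε := by positivity
  have hε96 : ε ≤ 1 / 96 := one_div_le_one_div_of_le (by norm_num) (by linarith)
  set κ : ℝ := ε / (100 * ℓ) with hκ
  have hκ0 : 0 < κ := by positivity
  have hκℓ : κ * ℓ ≤ ε / 100 := by
    apply le_of_eq
    rw [hκ]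
    field_simp
  have hκ16 : κ ≤ 1 / 16 := by
    rw [hκ, div_le_iff₀ (by positivity)]
    linarith
  have hlogκ : 0 ≤ Real.log (1 / κ) := by
    apply Real.log_nonneg
    rw [le_div_iff₀ hκ0]
    linarith
  set E : ℝ := C * (1 + Real.log (1 / κ)) with hE
  have hE0 : 0 < E := by positivity
  have hVt : Tendsto (fun a : ℝ => 2 / Real.pi ^ 2 * Real.log a) atTop atTop :=
    Real.tendsto_log_atTop.const_mul_atTop (by positivity)
  have c1 : ∀ᶠ a : ℝ in atTop, ∀ d ∈ D, 2 * ℓ * d.1 ≤ a ∧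
      |2 / Real.pi ^ 2 * Real.log d.1| + E + 1 ≤ 2 / Real.pi ^ 2 * Real.log a / 2 := by
    rw [Filter.eventually_all_finset]
    intro d hd
    filter_upwards [eventually_ge_atTop (2 * ℓ * d.1), hVt.eventually_ge_atTop
      (2 * (|2 / Real.pi ^ 2 * Real.log d.1| + E + 1))] with a h1 h2
    exact ⟨h1, by linarith⟩
  filter_upwards [c1, hVt.eventually_ge_atTop 16, hVt.eventually_ge_atTop
    ((3072 * k ^ 3 * (E + 3)) ^ 2), eventually_gt_atTop (1 : ℝ)] with a g1 g2 g3 g4
  have ha0 : 0 < a := by linarith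
  set V : ℝ := 2 / Real.pi ^ 2 * Real.log a with hV
  have hV0 : 0 < V := by linarith
  have hla : 0 < Real.log a := Real.log_pos g4
  have c2 : ∀ᶠ T : ℝ in atTop, ∀ d ∈ D, Facts ℓ κ a E T d := by
    rw [Filter.eventually_all_finset]
    intro d hd
    exact facts hℓ hC hκ0 (by linarith) hcomb' cr2 (hD d hd) (g1 d hd).1
  have c3 : ∀ᶠ T : ℝ in atTop, ∀ d ∈ D, ∀ e ∈ D, d ≠ e →
      |∫ t in (5 / 4 * T)..(7 / 4 * T), Pd ℓ κ a T d t * Pd ℓ κ a T e t| ≤
        ε * T * (1 + VS (uu ℓ a T d.1) (XX κ T d.1)) := by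
    rw [Filter.eventually_all_finset]
    intro d hd
    rw [Filter.eventually_all_finset]
    intro e he
    by_cases hde : d = e
    · exact Eventually.of_forall fun T h => absurd hde h
    · filter_upwards [pair tw cr1 cr2 hℓ hκ0 hκ16 hκℓ hε0 (by linarith) ha0 (hD d hd) (hD e he) hde]
        with T hT _
      exact hT
  filter_upwards [c2, c3, eventually_gt_atTop (0 : ℝ)] with T f1 f2 hT w
  set W : ℝ := ∑ d ∈ D, w d ^ 2 with hW
  have hW0 : 0 ≤ W := Finset.sum_nonneg fun d _ => sq_nonneg _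
  have hAB : 5 / 4 * T ≤ 7 / 4 * T := by linarith
  -- the variances
  have hVS : ∀ d ∈ D, V / 2 ≤ VS (uu ℓ a T d.1) (XX κ T d.1) ∧
      VS (uu ℓ a T d.1) (XX κ T d.1) ≤ 2 * V := by
    intro d hd
    have h1 := abs_le.1 (f1 d hd).var
    have h2 := (g1 d hd).2
    have hd0 := hD d hd
    rw [Real.log_div ha0.ne' hd0.ne', mul_sub, ← hV] at h1
    have h3 := le_abs_self (2 / Real.pi ^ 2 * Real.log d.1)
    have h4 := neg_abs_le (2 / Real.pi ^ 2 * Real.log d.1)
    constructor <;> linarith [h1.1, h1.2]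
  have hTV : 0 < T * V := by positivity
  have hsq1 : ∀ d ∈ D, 2 * (T * V / 32) ≤ ∫ t in (5 / 4 * T)..(7 / 4 * T),
      Pd ℓ κ a T d t * Pd ℓ κ a T d t := by
    intro d hd
    have h1 := (abs_le.1 (f1 d hd).sq).1
    have h2 := mul_le_mul_of_nonneg_left (hVS d hd).1 (show 0 ≤ T / 4 by positivity)
    have h3 := mul_le_mul_of_nonneg_left g2 hT.le
    linarith
  have hsq2 : ∀ d ∈ D, ∫ t in (5 / 4 * T)..(7 / 4 * T),
      Pd ℓ κ a T d t * Pd ℓ κ a T d t ≤ 9 / 16 * (T * V) := by
    intro d hd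
    have h1 := (abs_le.1 (f1 d hd).sq).2
    have h2 := mul_le_mul_of_nonneg_left (hVS d hd).2 (show 0 ≤ T / 4 by positivity)
    have h3 := mul_le_mul_of_nonneg_left g2 hT.le
    linarith
  have hx : ∀ d ∈ D, ∀ e ∈ D, d ≠ e → |∫ t in (5 / 4 * T)..(7 / 4 * T),
      Pd ℓ κ a T d t * Pd ℓ κ a T e t| ≤ 3 * ε * (T * V) := by
    intro d hd e he hde
    refine (f2 d hd e he hde).trans ?_
    have h1 := mul_le_mul_of_nonneg_left (hVS d hd).2 (show 0 ≤ ε * T by positivity)
    have h2 := mul_le_mul_of_nonneg_left (show 1 ≤ V by linarith) (show 0 ≤ ε * T by positivity)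
    linarith
  have hfo : ∀ d ∈ D, ∫ t in (5 / 4 * T)..(7 / 4 * T), Pd ℓ κ a T d t ^ 4 ≤ 8 * (T * V ^ 2) := by
    intro d hd
    refine (f1 d hd).fo.trans ?_
    have h1 := VS_nonneg (uu ℓ a T d.1) (XX κ T d.1)
    have h2 := pow_le_pow_left₀ h1 (hVS d hd).2 2
    have h3 := mul_le_mul_of_nonneg_left h2 (show 0 ≤ 2 * T by positivity)
    linarith
  set sV := Real.sqrt V with hsV
  have hsV0 : 0 < sV := Real.sqrt_pos.2 hV0
  have hsVV : sV ^ 2 = V := Real.sq_sqrt hV0.le
  have hkε : k * (3 * ε * (T * V)) = T * V / 32 := by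
    rw [hε]; field_simp; norm_num
  have hPc : ∀ d, Continuous (Pd ℓ κ a T d) := Pd_cont ℓ κ a T
  have L1 := l1_sum D (Pd ℓ κ a T) hPc w (A := 5 / 4 * T) (B := 7 / 4 * T) (Q := T * V / 32)
    (ε := 3 * ε * (T * V)) (M := 8 * (T * V ^ 2)) (σ := 12 * k ^ 2 * sV) hAB (by positivity)
    (by positivity) hsq1 (by rw [← hk, hkε]) hx hfo (by
      rw [← hk]
      have e1 : 2 * (T * V / 32) * (12 * k ^ 2 * sV) ^ 2 = 9 * k ^ 4 * (T * V ^ 2) := by
        rw [mul_pow, hsVV]; ring
      rw [e1]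
      have h1 : k ^ 3 ≤ k ^ 4 := pow_le_pow_right₀ hk1 (by norm_num)
      have h2 := mul_le_mul_of_nonneg_right h1 (show 0 ≤ 8 * (T * V ^ 2) by positivity)
      have h3 : 0 ≤ k ^ 4 * (T * V ^ 2) := by positivity
      linarith)
  rw [← hW] at L1
  set sW := Real.sqrt W with hsW
  have hsW0 : 0 ≤ sW := Real.sqrt_nonneg _
  have hsWW : sW ^ 2 = W := Real.sq_sqrt hW0
  have e1 : T * V / 32 / (2 * (12 * k ^ 2 * sV)) * sW = T * sV * sW / (768 * k ^ 2) := by
    rw [show T * V / 32 = T * sV ^ 2 / 32 by rw [hsVV]]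
    field_simp; ring
  rw [e1] at L1
  -- the mean
  have hme : |∫ t in (5 / 4 * T)..(7 / 4 * T), ∑ d ∈ D, w d * Pd ℓ κ a T d t| ≤ k * sW * T := by
    rw [intervalIntegral.integral_finsetSum (fun d _ =>
      (show Continuous fun t => w d * Pd ℓ κ a T d t from
        continuous_const.mul (hPc d)).intervalIntegrable _ _)]
    refine (Finset.abs_sum_le_sum_abs _ _).trans ?_
    calc ∑ d ∈ D, |∫ t in (5 / 4 * T)..(7 / 4 * T), w d * Pd ℓ κ a T d t| ≤
        ∑ d ∈ D, |w d| * T := by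
          refine Finset.sum_le_sum fun d hd => ?_
          rw [intervalIntegral.integral_const_mul, abs_mul]
          exact mul_le_mul_of_nonneg_left (f1 d hd).me (abs_nonneg _)
      _ = (∑ d ∈ D, |w d|) * T := by rw [Finset.sum_mul]
      _ ≤ k * sW * T := mul_le_mul_of_nonneg_right (sum_abs_le D w) hT.le
  -- the errors
  have hdi : ∀ d ∈ D, IntervalIntegrable (dN a T d) volume (5 / 4 * T) (7 / 4 * T) :=
    fun d hd => dN_ii a T (hD d hd) _ _
  have hRi : ∀ d ∈ D, IntervalIntegrable (fun t => dN a T d t - a / d.1 + Pd ℓ κ a T d t) volume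
      (5 / 4 * T) (7 / 4 * T) := fun d hd =>
    ((hdi d hd).sub (continuous_const.intervalIntegrable _ _)).add
      ((hPc d).intervalIntegrable _ _)
  have hR := int_sum_abs D w (fun d t => dN a T d t - a / d.1 + Pd ℓ κ a T d t)
    (M := (E + 2) * T) hAB hRi (by positivity) (fun d hd => (f1 d hd).er)
  rw [← hk, ← hW, ← hsW] at hR
  have hRsum : IntervalIntegrable (fun t => ∑ d ∈ D, w d * (dN a T d t - a / d.1 +
      Pd ℓ κ a T d t)) volume (5 / 4 * T) (7 / 4 * T) := by
    have h1 := IntervalIntegrable.sum D (fun d hd => (hRi d hd).const_mul (w d))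
    have e1 : (∑ d ∈ D, fun t => w d * (dN a T d t - a / d.1 + Pd ℓ κ a T d t)) =
        fun t => ∑ d ∈ D, w d * (dN a T d t - a / d.1 + Pd ℓ κ a T d t) := by
      funext t; exact Finset.sum_apply t D _
    rwa [e1] at h1
  have hFsum : IntervalIntegrable (fun t => ∑ d ∈ D, w d * dN a T d t) volume
      (5 / 4 * T) (7 / 4 * T) := by
    have h1 := IntervalIntegrable.sum D (fun d hd => (hdi d hd).const_mul (w d))
    have e1 : (∑ d ∈ D, fun t => w d * dN a T d t) = fun t => ∑ d ∈ D, w d * dN a T d t := by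
      funext t; exact Finset.sum_apply t D _
    rwa [e1] at h1
  have hPsc : Continuous fun t => ∑ d ∈ D, w d * Pd ℓ κ a T d t :=
    continuous_finsetSum _ fun d _ => continuous_const.mul (hPc d)
  have hid : ∀ t, ∑ d ∈ D, w d * dN a T d t = ∑ d ∈ D, w d * (a / d.1) -
      ∑ d ∈ D, w d * Pd ℓ κ a T d t + ∑ d ∈ D, w d * (dN a T d t - a / d.1 + Pd ℓ κ a T d t) := by
    intro t
    rw [← Finset.sum_sub_distrib, ← Finset.sum_add_distrib]
    exact Finset.sum_congr rfl fun d _ => by ring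
  -- square roots
  have hsVl : 3072 * k ^ 3 * (E + 3) ≤ sV := Real.le_sqrt_of_sq_le g3
  have hla2 : Real.sqrt (Real.log a) * (2 / 5) ≤ sV := by
    apply Real.le_sqrt_of_sq_le
    rw [mul_pow, Real.sq_sqrt hla.le, hV]
    have h1 : (2 / 5 : ℝ) ^ 2 ≤ 2 / Real.pi ^ 2 := by
      rw [le_div_iff₀ (by positivity)]
      nlinarith
    have := mul_le_mul_of_nonneg_left h1 hla.le
    linarith
  have hla3 : sV ≤ Real.sqrt (Real.log a) := by
    apply Real.sqrt_le_sqrt
    rw [hV]
    have h1 : 2 / Real.pi ^ 2 ≤ 1 := by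
      rw [div_le_one (by positivity)]
      nlinarith
    have := mul_le_mul_of_nonneg_right h1 hla.le
    linarith
  have hk2 : 0 < k ^ 2 := by positivity
  have hTW : 0 ≤ T * sW := by positivity
  constructor
  · intro b
    set b' := ∑ d ∈ D, w d * (a / d.1) - b with hb'
    have k1 := sub_const hAB (hPsc.intervalIntegrable _ _) b'
    have k2 : ∫ t in (5 / 4 * T)..(7 / 4 * T), |∑ d ∈ D, w d * Pd ℓ κ a T d t - b'| ≤
        ∫ t in (5 / 4 * T)..(7 / 4 * T), (|∑ d ∈ D, w d * dN a T d t - b| +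
          |∑ d ∈ D, w d * (dN a T d t - a / d.1 + Pd ℓ κ a T d t)|) := by
      refine intervalIntegral.integral_mono_on hAB
        ((hPsc.sub continuous_const).abs.intervalIntegrable _ _)
        ((hFsum.sub (continuous_const.intervalIntegrable _ _)).abs.add hRsum.abs) fun t _ => ?_
      have h1 := hid t
      have h2 := abs_sub (∑ d ∈ D, w d * (dN a T d t - a / d.1 + Pd ℓ κ a T d t))
        (∑ d ∈ D, w d * dN a T d t - b)
      have h3 : ∑ d ∈ D, w d * Pd ℓ κ a T d t - b' =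
          ∑ d ∈ D, w d * (dN a T d t - a / d.1 + Pd ℓ κ a T d t) -
          (∑ d ∈ D, w d * dN a T d t - b) := by rw [hb']; linarith
      rw [h3]
      linarith
    rw [intervalIntegral.integral_add (hFsum.sub (continuous_const.intervalIntegrable _ _)).abs
      hRsum.abs] at k2
    have k3 : T * sV * sW / (3072 * k ^ 2) ≤
        ∫ t in (5 / 4 * T)..(7 / 4 * T), |∑ d ∈ D, w d * dN a T d t - b| := by
      have h1 : T * sV * sW / (768 * k ^ 2) = 4 * (T * sV * sW / (3072 * k ^ 2)) := by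
        field_simp; ring
      have h2 : k * (E + 3) * (T * sW) ≤ T * sV * sW / (3072 * k ^ 2) := by
        rw [le_div_iff₀ (by positivity)]
        have h3 := mul_le_mul_of_nonneg_right hsVl hTW
        have e : k * (E + 3) * (T * sW) * (3072 * k ^ 2) = 3072 * k ^ 3 * (E + 3) * (T * sW) := by
          ring
        rw [e]
        linarith
      have h3 : 0 ≤ k * (T * sW) := by positivity
      have h4 : 0 ≤ k * (T * sW) * E := by positivity
      linarith
    refine le_trans ?_ k3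
    rw [div_le_div_iff₀ (by positivity) (by positivity)]
    have h1 := mul_le_mul_of_nonneg_right hla2 (show 0 ≤ T * sW * k ^ 2 by positivity)
    have h2 : 0 ≤ sV * (T * sW * k ^ 2) := by positivity
    linarith
  · -- the upper bound
    have k1 : ∫ t in (5 / 4 * T)..(7 / 4 * T), |∑ d ∈ D, w d * Pd ℓ κ a T d t| ≤
        3 / 4 * (T * sV * sW) := by
      rcases hW0.eq_or_lt with h0 | h0
      · have h1 : ∀ d ∈ D, w d = 0 := by
          intro d hd
          have := (Finset.sum_eq_zero_iff_of_nonneg (fun e _ => sq_nonneg (w e))).1 h0.symm d hd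
          exact pow_eq_zero_iff (two_ne_zero) |>.1 this
        have h2 : ∀ t, ∑ d ∈ D, w d * Pd ℓ κ a T d t = 0 := fun t =>
          Finset.sum_eq_zero fun d hd => by rw [h1 d hd, zero_mul]
        simp_rw [h2]
        simp only [abs_zero, intervalIntegral.integral_zero]
        positivity
      · have h1 := (sq_bounds D (Pd ℓ κ a T) hPc w (5 / 4 * T) (7 / 4 * T) (2 * (T * V / 32))
          (9 / 16 * (T * V)) (3 * ε * (T * V)) (by positivity) hsq1 hsq2 hx).2
        rw [← hk, ← hW, hkε] at h1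
        have hsWp : 0 < sW := Real.sqrt_pos.2 h0
        have h2 := l1_up hPsc hAB (show 0 < sV * sW by positivity)
        refine h2.trans ?_
        have h3 : 1 / (2 * (sV * sW)) * (∫ t in (5 / 4 * T)..(7 / 4 * T),
            (∑ d ∈ D, w d * Pd ℓ κ a T d t) ^ 2) ≤ 1 / (2 * (sV * sW)) * (T * V * W) := by
          apply mul_le_mul_of_nonneg_left _ (by positivity)
          refine h1.trans ?_
          have : 0 ≤ T * V * W := by positivity
          linarith
        have h4 : 1 / (2 * (sV * sW)) * (T * V * W) = T * sV * sW / 2 := by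
          rw [← hsVV, ← hsWW]
          field_simp
        linarith
    have k2 : ∫ t in (5 / 4 * T)..(7 / 4 * T), |∑ d ∈ D, w d * dN a T d t -
        ∑ d ∈ D, w d * (a / d.1)| ≤
        ∫ t in (5 / 4 * T)..(7 / 4 * T), (|∑ d ∈ D, w d * Pd ℓ κ a T d t| +
          |∑ d ∈ D, w d * (dN a T d t - a / d.1 + Pd ℓ κ a T d t)|) := by
      refine intervalIntegral.integral_mono_on hAB
        (hFsum.sub (continuous_const.intervalIntegrable _ _)).abs
        ((hPsc.abs.intervalIntegrable _ _).add hRsum.abs) fun t _ => ?_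
      have h1 := hid t
      have h2 := abs_sub (∑ d ∈ D, w d * (dN a T d t - a / d.1 + Pd ℓ κ a T d t))
        (∑ d ∈ D, w d * Pd ℓ κ a T d t)
      have h3 : ∑ d ∈ D, w d * dN a T d t - ∑ d ∈ D, w d * (a / d.1) =
          ∑ d ∈ D, w d * (dN a T d t - a / d.1 + Pd ℓ κ a T d t) -
          ∑ d ∈ D, w d * Pd ℓ κ a T d t := by linarith
      rw [h3]
      linarith
    rw [intervalIntegral.integral_add (hPsc.abs.intervalIntegrable _ _) hRsum.abs] at k2
    have h2 : k * (E + 3) * (T * sW) ≤ T * sV * sW / 3072 := by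
      have h3 := mul_le_mul_of_nonneg_right hsVl hTW
      have h4 : k ≤ k ^ 3 := by
        have : k ^ 1 ≤ k ^ 3 := pow_le_pow_right₀ hk1 (by norm_num)
        simpa using this
      have h5 := mul_le_mul_of_nonneg_right h4 (show 0 ≤ (E + 3) * (T * sW) by positivity)
      linarith
    have h3 : 0 ≤ k * (T * sW) := by positivity
    have h4 : 0 ≤ T * sV * sW := by positivity
    have h5 := mul_le_mul_of_nonneg_right hla3 hTW
    linarith

end Pool.Agent.K7.H54.AF
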