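import Pool.Agent.Y743.AF.Fin

/-! MP_0ec205_nt: counting in windows under a partial matching of two families of affine copies. -/

set_option autoImplicit false

namespace Pool.Agent.K7.H54.AF

open Filter Topology MeasureTheory
open SG (NZ ord)
open Pool.Agent.Y762.AF.Match (ind ind_eq ico_le int_ind int_abs abs_le_one bound2 ii_sum)

lemma cnt {x y : ℝ} {N : ℕ} (hxy : x ≤ y) (hN : NZ y ≤ N) :
    (NZ y : ℝ) - NZ x = ∑ n ∈ Finset.Icc 1 N, if x < ord n ∧ ord n ≤ y then (1 : ℝ) else 0 := by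
  have h1 : NZ x ≤ NZ y := SG.NZ_mono hxy
  have h3 : (Finset.Icc 1 N).filter (fun n => x < ord n ∧ ord n ≤ y) = Finset.Ioc (NZ x) (NZ y) := by
    ext n
    rw [Finset.mem_filter, Finset.mem_Icc, Finset.mem_Ioc]
    constructor
    · rintro ⟨⟨hn, _⟩, h4, h5⟩
      refine ⟨?_, (SG.ord_le_iff hn y).1 h5⟩
      by_contra h
      push Not at h
      have := (SG.ord_le_iff hn x).2 h
      linarith
    · rintro ⟨h4, h5⟩
      have hn : 1 ≤ n := by omega
      refine ⟨⟨hn, by omega⟩, ?_, (SG.ord_le_iff hn y).2 h5⟩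
      by_contra h
      push Not at h
      have := (SG.ord_le_iff hn x).1 h
      omega
  rw [← Finset.sum_filter, h3, Finset.sum_const, Nat.card_Ioc, nsmul_eq_mul, Nat.cast_sub h1, mul_one]

/-- the number of points of an affine copy in a window, as a sum -/
lemma cnt_aff {lam c t h T : ℝ} (hlam : 0 < lam) (hh : 0 ≤ h) (hT : t + h ≤ T) :
    (NZ ((t - c) / lam + h / lam) : ℝ) - NZ ((t - c) / lam) =
      ∑ n ∈ Finset.Icc 1 (NZ ((T - c) / lam)), ind h (lam * ord n + c) t := by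
  rw [cnt (N := NZ ((T - c) / lam)) (by
    have : 0 ≤ h / lam := by positivity
    linarith) (SG.NZ_mono (by
      rw [← add_div]
      exact div_le_div_of_nonneg_right (by linarith) hlam.le))]
  refine Finset.sum_congr rfl fun n _ => ?_
  rw [ind_eq]
  refine if_congr ?_ rfl rfl
  rw [← add_div, div_lt_iff₀ hlam, le_div_iff₀ hlam]
  constructor
  · rintro ⟨k1, k2⟩; constructor <;> linarith
  · rintro ⟨k1, k2⟩; constructor <;> linarith

/-- counting in windows under a partial matching -/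
lemma part {α β : Type*} [DecidableEq α] [DecidableEq β] (P : Finset α) (Q : Finset β) (f : α → ℝ)
    (g : β → ℝ) (S : Finset α) (σ : α → β) (hS : S ⊆ P) (hσ : ∀ x ∈ S, σ x ∈ Q)
    (hinj : Set.InjOn σ S) {h η A B : ℝ} (hh : 0 ≤ h) (hAB : A ≤ B)
    (hη : ∀ x ∈ S, |g (σ x) - f x| ≤ η) :
    ∫ t in A..B, |∑ x ∈ P, ind h (f x) t - ∑ y ∈ Q, ind h (g y) t| ≤
      2 * η * S.card + h * ((P.card : ℝ) + Q.card - 2 * S.card) := by
  have hR : S.image σ ⊆ Q := by
    intro y hy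
    obtain ⟨x, hx, rfl⟩ := Finset.mem_image.1 hy
    exact hσ x hx
  have hRc : (S.image σ).card = S.card := Finset.card_image_of_injOn hinj
  have hP : ∀ t, ∑ x ∈ P, ind h (f x) t = ∑ x ∈ P \ S, ind h (f x) t + ∑ x ∈ S, ind h (f x) t :=
    fun t => (Finset.sum_sdiff hS).symm
  have hQ : ∀ t, ∑ y ∈ Q, ind h (g y) t = ∑ y ∈ Q \ S.image σ, ind h (g y) t +
      ∑ x ∈ S, ind h (g (σ x)) t := by
    intro t
    rw [← Finset.sum_sdiff hR, Finset.sum_image (f := fun y => ind h (g y) t) hinj]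
  have i1 : ∀ x ∈ S, IntervalIntegrable (fun t => |ind h (f x) t - ind h (g (σ x)) t|) volume A B :=
    fun x _ => int_abs _ _ _ _ _
  have i2 : ∀ x ∈ P \ S, IntervalIntegrable (fun t => ind h (f x) t) volume A B :=
    fun x _ => int_ind _ _ _ _
  have i3 : ∀ y ∈ Q \ S.image σ, IntervalIntegrable (fun t => ind h (g y) t) volume A B :=
    fun x _ => int_ind _ _ _ _
  have j1 := ii_sum S (fun x t => |ind h (f x) t - ind h (g (σ x)) t|) A B i1
  have j2 := ii_sum (P \ S) (fun x t => ind h (f x) t) A B i2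
  have j3 := ii_sum (Q \ S.image σ) (fun y t => ind h (g y) t) A B i3
  have h1 : ∫ t in A..B, |∑ x ∈ P, ind h (f x) t - ∑ y ∈ Q, ind h (g y) t| ≤
      ∫ t in A..B, (∑ x ∈ S, |ind h (f x) t - ind h (g (σ x)) t| +
        ∑ x ∈ P \ S, ind h (f x) t + ∑ y ∈ Q \ S.image σ, ind h (g y) t) := by
    refine intervalIntegral.integral_mono_on hAB ?_ ((j1.add j2).add j3) fun t _ => ?_
    · refine IntervalIntegrable.abs (IntervalIntegrable.sub ?_ ?_)
      · exact ii_sum P (fun x t => ind h (f x) t) A B fun x _ => int_ind _ _ _ _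
      · exact ii_sum Q (fun y t => ind h (g y) t) A B fun x _ => int_ind _ _ _ _
    · rw [hP, hQ]
      have e : ∑ x ∈ P \ S, ind h (f x) t + ∑ x ∈ S, ind h (f x) t -
          (∑ y ∈ Q \ S.image σ, ind h (g y) t + ∑ x ∈ S, ind h (g (σ x)) t) =
          ∑ x ∈ S, (ind h (f x) t - ind h (g (σ x)) t) + ∑ x ∈ P \ S, ind h (f x) t -
          ∑ y ∈ Q \ S.image σ, ind h (g y) t := by
        rw [Finset.sum_sub_distrib]; ring
      rw [e]
      have p1 : 0 ≤ ∑ x ∈ P \ S, ind h (f x) t :=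
        Finset.sum_nonneg fun x _ => (abs_le_one h (f x) t).1
      have p2 : 0 ≤ ∑ y ∈ Q \ S.image σ, ind h (g y) t :=
        Finset.sum_nonneg fun y _ => (abs_le_one h (g y) t).1
      have p3 := Finset.abs_sum_le_sum_abs (fun x => ind h (f x) t - ind h (g (σ x)) t) S
      have p4 := abs_le.1 p3
      rw [abs_le]
      constructor <;> linarith [p4.1, p4.2]
  have j12 : IntervalIntegrable (fun t => ∑ x ∈ S, |ind h (f x) t - ind h (g (σ x)) t| +
        ∑ x ∈ P \ S, ind h (f x) t) volume A B := j1.add j2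
  refine h1.trans ?_
  rw [intervalIntegral.integral_add j12 j3, intervalIntegral.integral_add j1 j2,
    intervalIntegral.integral_finsetSum i1, intervalIntegral.integral_finsetSum i2,
    intervalIntegral.integral_finsetSum i3]
  have hind : ∀ z : ℝ, ∫ t in A..B, ind h z t ≤ h := fun z => by
    have := ico_le (z - h) z A B (by linarith) hAB
    refine le_trans this (by linarith)
  have b1 : ∑ x ∈ S, ∫ t in A..B, |ind h (f x) t - ind h (g (σ x)) t| ≤ 2 * η * S.card := by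
    have : ∀ x ∈ S, ∫ t in A..B, |ind h (f x) t - ind h (g (σ x)) t| ≤ 2 * η := by
      intro x hx
      refine (bound2 h (f x) (g (σ x)) A B hAB).trans ?_
      rw [abs_sub_comm]
      linarith [hη x hx]
    refine (Finset.sum_le_sum this).trans (le_of_eq ?_)
    rw [Finset.sum_const, nsmul_eq_mul]; ring
  have b2 : ∑ x ∈ P \ S, ∫ t in A..B, ind h (f x) t ≤ h * ((P.card : ℝ) - S.card) := by
    refine (Finset.sum_le_sum fun x _ => hind (f x)).trans (le_of_eq ?_)
    rw [Finset.sum_const, nsmul_eq_mul, Finset.card_sdiff_of_subset hS,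
      Nat.cast_sub (Finset.card_le_card hS)]
    ring
  have b3 : ∑ y ∈ Q \ S.image σ, ∫ t in A..B, ind h (g y) t ≤ h * ((Q.card : ℝ) - S.card) := by
    refine (Finset.sum_le_sum fun x _ => hind (g x)).trans (le_of_eq ?_)
    rw [Finset.sum_const, nsmul_eq_mul, Finset.card_sdiff_of_subset hR,
      Nat.cast_sub (Finset.card_le_card hR), hRc]
    ring
  have e : h * ((P.card : ℝ) + Q.card - 2 * S.card) = h * ((P.card : ℝ) - S.card) +
    h * ((Q.card : ℝ) - S.card) := by ring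
  rw [e]
  linarith

/-- the position of a point of a family of affine copies -/
noncomputable def pos {m : ℕ} (F : Fin m → ℝ × ℝ) (x : Fin m × ℕ) : ℝ := (F x.1).1 * ord x.2 + (F x.1).2

/-- the indices of the points up to `T` -/
noncomputable def pts {m : ℕ} (F : Fin m → ℝ × ℝ) (T : ℝ) : Finset (Fin m × ℕ) :=
  ((Finset.univ : Finset (Fin m)) ×ˢ Finset.Icc 1 (Finset.univ.sup
    fun i => NZ ((T - (F i).2) / (F i).1))).filter fun x => x.2 ≤ NZ ((T - (F x.1).2) / (F x.1).1)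

lemma mem_pts {m : ℕ} (F : Fin m → ℝ × ℝ) (T : ℝ) (x : Fin m × ℕ) :
    x ∈ pts F T ↔ x.1 ∈ Finset.univ ∧ x.2 ∈ Finset.Icc 1 (NZ ((T - (F x.1).2) / (F x.1).1)) := by
  unfold pts
  rw [Finset.mem_filter, Finset.mem_product, Finset.mem_Icc, Finset.mem_Icc]
  constructor
  · rintro ⟨⟨h1, h2, h3⟩, h4⟩
    exact ⟨h1, h2, h4⟩
  · rintro ⟨h1, h2, h4⟩
    refine ⟨⟨h1, h2, h4.trans ?_⟩, h4⟩
    exact Finset.le_sup (f := fun i => NZ ((T - (F i).2) / (F i).1)) (Finset.mem_univ x.1)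

lemma mem_pts' {m : ℕ} (F : Fin m → ℝ × ℝ) (hF : ∀ i, 0 < (F i).1) (T : ℝ) (x : Fin m × ℕ) :
    x ∈ pts F T ↔ 1 ≤ x.2 ∧ pos F x ≤ T := by
  rw [mem_pts, Finset.mem_Icc]
  constructor
  · rintro ⟨_, h1, h2⟩
    refine ⟨h1, ?_⟩
    have h3 := (SG.ord_le_iff h1 _).2 h2
    rw [le_div_iff₀ (hF _)] at h3
    unfold pos
    linarith
  · rintro ⟨h1, h2⟩
    refine ⟨Finset.mem_univ _, h1, ?_⟩
    apply (SG.ord_le_iff h1 _).1
    rw [le_div_iff₀ (hF _)]
    unfold pos at h2
    linarith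

lemma sum_pts {m : ℕ} (F : Fin m → ℝ × ℝ) (T : ℝ) (f : Fin m × ℕ → ℝ) :
    ∑ x ∈ pts F T, f x = ∑ i, ∑ n ∈ Finset.Icc 1 (NZ ((T - (F i).2) / (F i).1)), f (i, n) :=
  Finset.sum_finset_product (pts F T) Finset.univ
    (fun i => Finset.Icc 1 (NZ ((T - (F i).2) / (F i).1))) (mem_pts F T)

lemma card_pts {m : ℕ} (F : Fin m → ℝ × ℝ) (T : ℝ) :
    ((pts F T).card : ℝ) = ∑ i, (NZ ((T - (F i).2) / (F i).1) : ℝ) := by
  have h := sum_pts F T (fun _ => 1)
  rw [Finset.sum_const, nsmul_eq_mul, mul_one] at h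
  rw [h]
  refine Finset.sum_congr rfl fun i _ => ?_
  rw [Finset.sum_const, nsmul_eq_mul, mul_one, Nat.card_Icc, Nat.add_sub_cancel]

lemma up_one (lam c : ℝ) (hlam : 0 < lam) : ∃ C : ℝ, 0 < C ∧ ∀ᶠ T : ℝ in atTop,
    (NZ ((T - c) / lam) : ℝ) ≤ C * (T * Real.log T) := by
  obtain ⟨C, T1, hC, hT1, hup⟩ := SP.PosProp.NZ_up
  set K : ℝ := (1 + |c|) / lam + 1 with hK
  have hK1 : 1 ≤ K := by
    rw [hK]
    have : 0 ≤ (1 + |c|) / lam := by positivity
    linarith
  refine ⟨C * (2 * K), by positivity, ?_⟩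
  filter_upwards [eventually_ge_atTop T1, eventually_ge_atTop K, eventually_ge_atTop (1 : ℝ)]
    with T h1 h2 h3
  have hT0 : 0 < T := by linarith
  have hlog : 0 ≤ Real.log T := Real.log_nonneg h3
  have hKT : T1 ≤ K * T := by nlinarith
  have hc := neg_abs_le c
  have h4 : (T - c) / lam ≤ 2 * (K * T) := by
    rw [div_le_iff₀ hlam]
    have e : 2 * (K * T) * lam = 2 * T * (1 + |c|) + 2 * T * lam := by
      rw [hK]; field_simp
    rw [e]
    have h5 : |c| ≤ T * |c| := le_mul_of_one_le_left (abs_nonneg _) h3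
    have h6 : 0 ≤ T * lam := by positivity
    nlinarith
  have h5 : (NZ ((T - c) / lam) : ℝ) ≤ NZ (2 * (K * T)) := by exact_mod_cast SG.NZ_mono h4
  refine (h5.trans (hup _ hKT)).trans ?_
  have h6 : Real.log (K * T) ≤ 2 * Real.log T := by
    rw [Real.log_mul (by linarith) hT0.ne']
    have := Real.log_le_log (by linarith) h2
    linarith
  have h7 := mul_le_mul_of_nonneg_left h6 (show 0 ≤ C * (K * T) by positivity)
  linarith

lemma up_all {m : ℕ} (F : Fin m → ℝ × ℝ) (hF : ∀ i, 0 < (F i).1) : ∃ C : ℝ, 0 < C ∧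
    ∀ᶠ T : ℝ in atTop, ((pts F T).card : ℝ) ≤ C * (T * Real.log T) := by
  choose C hC h using fun i => up_one (F i).1 (F i).2 (hF i)
  refine ⟨∑ i, C i + 1, by
    have : 0 ≤ ∑ i, C i := Finset.sum_nonneg fun i _ => (hC i).le
    linarith, ?_⟩
  filter_upwards [eventually_all.2 h, eventually_ge_atTop (1 : ℝ)] with T hT h1
  rw [card_pts]
  have h2 : 0 ≤ T * Real.log T := mul_nonneg (by linarith) (Real.log_nonneg h1)
  have h3 : ∑ i, (NZ ((T - (F i).2) / (F i).1) : ℝ) ≤ ∑ i, C i * (T * Real.log T) :=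
    Finset.sum_le_sum fun i _ => hT i
  rw [← Finset.sum_mul] at h3
  linarith

end Pool.Agent.K7.H54.AF
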