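import Pool.Agent.K7.H54.AF.Low
import Pool.Agent.K7.H54.AF.Mat

/-! MP_0ec205_nt: no matching between two different finite families of affine copies. -/

set_option autoImplicit false

namespace Pool.Agent.K7.H54.AF

open Filter Topology MeasureTheory
open SG (NZ ord)
open Pool.Agent.Y743.AF (S_TW S_CR1 S_CR2)
open Pool.Agent.Y762.AF.Match (ind ind_eq ico_le int_ind int_abs abs_le_one bound2 ii_sum)

lemma sum_fib {m : ℕ} (F : Fin m → ℝ × ℝ) (D : Finset (ℝ × ℝ)) (hD : ∀ i, F i ∈ D) (f : ℝ × ℝ → ℝ) :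
    ∑ d ∈ D, ((Finset.univ.filter fun i => F i = d).card : ℝ) * f d = ∑ i, f (F i) := by
  rw [← Finset.sum_fiberwise_of_maps_to (s := Finset.univ) (t := D) (g := F) (fun i _ => hD i)
    fun i => f (F i)]
  refine Finset.sum_congr rfl fun d _ => ?_
  rw [Finset.sum_congr rfl (g := fun _ => f d) fun i hi => by rw [(Finset.mem_filter.1 hi).2],
    Finset.sum_const, nsmul_eq_mul]

/-- the number of points of a family of affine copies in a window -/
lemma cnt_fam {m : ℕ} (F : Fin m → ℝ × ℝ) (hF : ∀ i, 0 < (F i).1) {a T' t T : ℝ}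
    (hh0 : 0 ≤ hh a T') (ht : t + hh a T' ≤ T) :
    ∑ i, dN a T' (F i) t = ∑ x ∈ pts F T, ind (hh a T') (pos F x) t := by
  rw [sum_pts]
  exact Finset.sum_congr rfl fun i _ => cnt_aff (hF i) hh0 ht

lemma fin_arith {c0 κ a L L' T U P : ℝ} (hP : 0 < P) (ha : 0 < a) (hT : 0 < T) (hκ : 0 < κ) (hL' : 0 < L')
    (hκ2 : κ * (16 * P * a) ≤ c0) (h5 : L ≤ 2 * L') (h4 : c0 * T / 4 ≤ 2 * P * a / L' * U) :
    κ * (T * L) ≤ U := by
  have h6 : c0 * T / 4 * L' ≤ 2 * P * a * U := by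
    have h7 := mul_le_mul_of_nonneg_right h4 hL'.le
    have e : 2 * P * a / L' * U * L' = 2 * P * a * U := by field_simp
    rwa [e] at h7
  have h7 : 2 * P * a * (κ * (T * L)) ≤ 2 * P * a * U := by
    refine le_trans ?_ h6
    have h8 := mul_le_mul_of_nonneg_right hκ2 (show 0 ≤ T * L' by positivity)
    have h9 := mul_le_mul_of_nonneg_left h5 (show 0 ≤ 2 * P * a * κ * T by positivity)
    have e1 : κ * (16 * P * a) * (T * L') = 16 * (P * a * κ * T * L') := by ring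
    have e2 : 2 * P * a * κ * T * (2 * L') = 4 * (P * a * κ * T * L') := by ring
    have e3 : 2 * P * a * (κ * (T * L)) = 2 * P * a * κ * T * L := by ring
    have e4 : c0 * (T * L') = 4 * (c0 * T / 4 * L') := by ring
    rw [e1, e4] at h8
    rw [e2] at h9
    rw [e3]
    linarith
  exact le_of_mul_le_mul_left h7 (by positivity)

theorem matched (tw : S_TW) (cr1 : S_CR1) (cr2 : S_CR2) {m n : ℕ} (F : Fin m → ℝ × ℝ)
    (G : Fin n → ℝ × ℝ) (hF : ∀ i, 0 < (F i).1) (hG : ∀ j, 0 < (G j).1)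
    (hne : ∃ d : ℝ × ℝ, (Finset.univ.filter fun i => F i = d).card ≠
      (Finset.univ.filter fun j => G j = d).card) :
    ∃ κ : ℝ, 0 < κ ∧ ∀ᶠ T : ℝ in atTop, ∀ (S : Finset (Fin m × ℕ)) (σ : Fin m × ℕ → Fin n × ℕ),
      Set.InjOn σ S → (∀ x ∈ S, 1 ≤ x.2 ∧ pos F x ≤ T ∧ 1 ≤ (σ x).2 ∧ pos G (σ x) ≤ T ∧
        |pos G (σ x) - pos F x| ≤ κ / Real.log T) →
      κ * (T * Real.log T) ≤ ((pts F T).card : ℝ) + (pts G T).card - 2 * S.card := by
  classical
  set D : Finset (ℝ × ℝ) := Finset.univ.image F ∪ Finset.univ.image G with hD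
  have hFD : ∀ i, F i ∈ D := fun i =>
    Finset.mem_union_left _ (Finset.mem_image_of_mem F (Finset.mem_univ i))
  have hGD : ∀ j, G j ∈ D := fun j =>
    Finset.mem_union_right _ (Finset.mem_image_of_mem G (Finset.mem_univ j))
  have hDpos : ∀ d ∈ D, 0 < d.1 := by
    intro d hd
    rcases Finset.mem_union.1 hd with h | h
    · obtain ⟨i, _, rfl⟩ := Finset.mem_image.1 h
      exact hF i
    · obtain ⟨j, _, rfl⟩ := Finset.mem_image.1 h
      exact hG j
  set w : ℝ × ℝ → ℝ := fun d => ((Finset.univ.filter fun i => F i = d).card : ℝ) -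
    ((Finset.univ.filter fun j => G j = d).card : ℝ) with hw
  have hsum : ∀ f : ℝ × ℝ → ℝ, ∑ d ∈ D, w d * f d = ∑ i, f (F i) - ∑ j, f (G j) := by
    intro f
    rw [← sum_fib F D hFD f, ← sum_fib G D hGD f, ← Finset.sum_sub_distrib]
    exact Finset.sum_congr rfl fun d _ => by rw [hw]; ring
  -- the weights do not vanish
  obtain ⟨d0, hd0⟩ := hne
  have hd0D : d0 ∈ D := by
    by_contra h
    apply hd0
    have h1 : (Finset.univ.filter fun i => F i = d0) = ∅ := by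
      rw [Finset.filter_eq_empty_iff]
      intro i _ hi
      exact h (hi ▸ hFD i)
    have h2 : (Finset.univ.filter fun j => G j = d0) = ∅ := by
      rw [Finset.filter_eq_empty_iff]
      intro j _ hj
      exact h (hj ▸ hGD j)
    rw [h1, h2, Finset.card_empty, Finset.card_empty]
  have hw0 : w d0 ≠ 0 := by
    rw [hw]
    simp only
    rw [sub_ne_zero]
    exact_mod_cast hd0
  have hW : 0 < ∑ d ∈ D, w d ^ 2 :=
    Finset.sum_pos' (fun d _ => sq_nonneg _) ⟨d0, hd0D, by positivity⟩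
  have hk : 0 < (D.card : ℝ) := by exact_mod_cast Finset.card_pos.2 ⟨d0, hd0D⟩
  obtain ⟨a, ha, ha1⟩ := ((main tw cr1 cr2 D hDpos).and (eventually_gt_atTop (1 : ℝ))).exists
  have ha0 : 0 < a := by linarith
  obtain ⟨c0, hc0⟩ : ∃ c0 : ℝ, c0 = Real.sqrt (Real.log a) * Real.sqrt (∑ d ∈ D, w d ^ 2) /
    (10000 * D.card ^ 2) := ⟨_, rfl⟩
  have hc0p : 0 < c0 := by
    have h1 : 0 < Real.sqrt (Real.log a) := Real.sqrt_pos.2 (Real.log_pos ha1)
    have h2 : 0 < Real.sqrt (∑ d ∈ D, w d ^ 2) := Real.sqrt_pos.2 hW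
    rw [hc0]
    exact div_pos (mul_pos h1 h2) (mul_pos (by norm_num) (pow_pos hk 2))
  obtain ⟨C, hC, hup⟩ := up_all F hF
  have hpi := Real.pi_gt_three
  obtain ⟨κ, hκ⟩ : ∃ κ : ℝ, κ = min (c0 / (8 * C)) (c0 / (16 * Real.pi * a)) := ⟨_, rfl⟩
  have hpa : 0 < 16 * Real.pi * a := mul_pos (mul_pos (by norm_num) Real.pi_pos) ha0
  have hκ0 : 0 < κ := by
    rw [hκ]
    exact lt_min (div_pos hc0p (mul_pos (by norm_num) hC)) (div_pos hc0p hpa)
  have hκ1 : κ * (8 * C) ≤ c0 := by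
    have := min_le_left (c0 / (8 * C)) (c0 / (16 * Real.pi * a))
    rwa [← hκ, le_div_iff₀ (mul_pos (by norm_num) hC)] at this
  have hκ2 : κ * (16 * Real.pi * a) ≤ c0 := by
    have := min_le_right (c0 / (8 * C)) (c0 / (16 * Real.pi * a))
    rwa [← hκ, le_div_iff₀ hpa] at this
  refine ⟨κ, hκ0, ?_⟩
  have hT2 : Tendsto (fun T : ℝ => T / 2) atTop atTop := tendsto_id.atTop_div_const (by norm_num)
  filter_upwards [hT2.eventually ha, hup, eventually_ge_atTop (4 : ℝ),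
    hT2.eventually ((Real.tendsto_log_atTop).eventually_ge_atTop (2 * Real.pi * a)),
    eventually_ge_atTop (8 : ℝ)] with T g1 g2 g3 g4 g5 S σ hinj hS
  obtain ⟨g1, -⟩ := g1 w
  have g1' := g1 0
  have hT0 : 0 < T := by linarith
  obtain ⟨T', hT'⟩ : ∃ T' : ℝ, T' = T / 2 := ⟨_, rfl⟩
  rw [← hT'] at g1' g4
  have hT'0 : 0 < T' := by linarith
  have hL' : 0 < Real.log T' := Real.log_pos (by linarith)
  have hL : 0 < Real.log T := Real.log_pos (by linarith)
  have hhe : hh a T' = 2 * Real.pi * a / Real.log T' := rfl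
  have hh0 : 0 < hh a T' := by
    rw [hhe]
    exact div_pos (mul_pos (mul_pos (by norm_num) Real.pi_pos) ha0) hL'
  have hh1 : hh a T' ≤ 1 := by
    rw [hhe, div_le_one hL']
    exact g4
  -- the counts
  have hcount : ∫ t in (5 / 4 * T')..(7 / 4 * T'), |∑ d ∈ D, w d * dN a T' d t - 0| =
      ∫ t in (5 / 4 * T')..(7 / 4 * T'), |∑ x ∈ pts F T, ind (hh a T') (pos F x) t -
        ∑ y ∈ pts G T, ind (hh a T') (pos G y) t| := by
    refine intervalIntegral.integral_congr fun t ht => ?_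
    rw [Set.uIcc_of_le (by linarith)] at ht
    obtain ⟨ht1, ht2⟩ := ht
    have htT : t + hh a T' ≤ T := by linarith
    show |∑ d ∈ D, w d * dN a T' d t - 0| = |∑ x ∈ pts F T, ind (hh a T') (pos F x) t -
        ∑ y ∈ pts G T, ind (hh a T') (pos G y) t|
    rw [sub_zero, hsum (fun d => dN a T' d t), cnt_fam F hF hh0.le htT, cnt_fam G hG hh0.le htT]
  rw [hcount] at g1'
  have hSP : S ⊆ pts F T := fun x hx => (mem_pts' F hF T x).2 ⟨(hS x hx).1, (hS x hx).2.1⟩
  have hp := part (pts F T) (pts G T) (pos F) (pos G) S σ hSP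
    (fun x hx => (mem_pts' G hG T _).2 ⟨(hS x hx).2.2.1, (hS x hx).2.2.2.1⟩) hinj
    (h := hh a T') (η := κ / Real.log T) (A := 5 / 4 * T') (B := 7 / 4 * T') hh0.le (by linarith)
    (fun x hx => (hS x hx).2.2.2.2)
  have h1 := g1'.trans hp
  have e0 : Real.sqrt (Real.log a) * Real.sqrt (∑ d ∈ D, w d ^ 2) * T' / (10000 * D.card ^ 2) =
      c0 * T' := by rw [hc0]; ring
  rw [e0] at h1
  have h2 : (S.card : ℝ) ≤ C * (T * Real.log T) :=
    le_trans (by exact_mod_cast Finset.card_le_card hSP) g2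
  have h3 : 2 * (κ / Real.log T) * S.card ≤ c0 * T / 4 := by
    calc 2 * (κ / Real.log T) * S.card ≤ 2 * (κ / Real.log T) * (C * (T * Real.log T)) :=
          mul_le_mul_of_nonneg_left h2 (mul_nonneg (by norm_num) (div_nonneg hκ0.le hL.le))
      _ = 2 * (κ * C) * T := by field_simp
      _ ≤ c0 * T / 4 := by
          have := mul_le_mul_of_nonneg_right hκ1 hT0.le
          linarith
  have h4 : c0 * T / 4 ≤ hh a T' * (((pts F T).card : ℝ) + (pts G T).card - 2 * S.card) := by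
    have e : c0 * T' = c0 * T / 2 := by rw [hT']; ring
    rw [e] at h1
    linarith
  have h5 : Real.log T ≤ 2 * Real.log T' := by
    have h6 : Real.log T ≤ Real.log (T' ^ 2) := by
      apply Real.log_le_log hT0
      rw [hT']
      have : T * 4 ≤ T * T := mul_le_mul_of_nonneg_left g3 hT0.le
      have e : (T / 2) ^ 2 = T * T / 4 := by ring
      rw [e]
      linarith
    rwa [Real.log_pow, Nat.cast_ofNat] at h6
  exact fin_arith Real.pi_pos ha0 hT0 hκ0 hL' hκ2 h5 h4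

lemma win_eq (a T : ℝ) (d : ℝ × ℝ) (t : ℝ) :
    (NZ ((t + 2 * Real.pi * a / Real.log T - d.2) / d.1) : ℝ) - NZ ((t - d.2) / d.1) = dN a T d t := by
  unfold dN hh
  congr 3
  ring

lemma ncard_pts {m : ℕ} (F : Fin m → ℝ × ℝ) (hF : ∀ i, 0 < (F i).1) (T : ℝ) :
    {x : Fin m × ℕ | 1 ≤ x.2 ∧ pos F x ≤ T}.ncard = (pts F T).card := by
  rw [← Set.ncard_coe_finset]
  congr 1
  ext x
  rw [Finset.mem_coe, mem_pts' F hF T x]
  rfl

end Pool.Agent.K7.H54.AF
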