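import Pool.Agent.K7.H54.AF.Fx
import Pool.Agent.Y743.AF.Core

/-! MP_0ec205_nt: one affine copy: moments of the prime polynomial and the error term. -/

set_option autoImplicit false

namespace Pool.Agent.K7.H54.AF

open Filter Topology MeasureTheory
open SG (NZ)
open Pool.Agent.Y743.AF (Prm mem_Prm PP PP_cont VS_eq' S_TW S_CR1 S_CR2 rc_abs_le rc_abs_le' NZ_ii
  er_eq abs_int_le m4 sub_int)
open Pool.Agent.Y743.CL (rc VS VS_nonneg XK rc_bd er comb)

/-- the length of the windows -/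
noncomputable def hh (a T : ℝ) : ℝ := 2 * Real.pi * a / Real.log T

/-- the coefficients of the prime polynomial of an affine copy with slope `lam` -/
noncomputable def uu (ℓ a T lam : ℝ) : ℕ → ℝ := rc (Real.log (T / lam) / ℓ) (hh a T / lam)

/-- the length of the prime polynomial of an affine copy with slope `lam` -/
noncomputable def XX (κ T lam : ℝ) : ℕ := XK κ (T / lam)

/-- the prime polynomial of an affine copy -/
noncomputable def Pd (ℓ κ a T : ℝ) (d : ℝ × ℝ) (t : ℝ) : ℝ :=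
  PP (uu ℓ a T d.1) (XX κ T d.1) ((t + (hh a T / 2 - d.2)) / d.1)

/-- the number of points of an affine copy in a window -/
noncomputable def dN (a T : ℝ) (d : ℝ × ℝ) (t : ℝ) : ℝ :=
  (NZ ((t - d.2) / d.1 + hh a T / d.1) : ℝ) - NZ ((t - d.2) / d.1)

lemma Pd_cont (ℓ κ a T : ℝ) (d : ℝ × ℝ) : Continuous (Pd ℓ κ a T d) := by
  have := PP_cont (uu ℓ a T d.1) (XX κ T d.1)
  unfold Pd
  fun_prop

lemma log_div_tendsto {lam : ℝ} (hlam : 0 < lam) :
    Tendsto (fun T : ℝ => Real.log (T / lam)) atTop atTop :=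
  Real.tendsto_log_atTop.comp (tendsto_id.atTop_div_const hlam)

/-- `log (T / lam) / log T → 1` -/
lemma ratio_tendsto {lam : ℝ} (hlam : 0 < lam) :
    Tendsto (fun T : ℝ => Real.log (T / lam) / Real.log T) atTop (𝓝 1) := by
  have h1 : Tendsto (fun T : ℝ => 1 - Real.log lam / Real.log T) atTop (𝓝 (1 - 0)) :=
    tendsto_const_nhds.sub (Real.tendsto_log_atTop.const_div_atTop _)
  rw [sub_zero] at h1
  refine h1.congr' ?_
  filter_upwards [eventually_gt_atTop 1] with T hT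
  have hL : 0 < Real.log T := Real.log_pos hT
  rw [Real.log_div (by linarith) hlam.ne']
  field_simp

lemma lo (K : ℝ) : ∀ᶠ T : ℝ in atTop, Real.log T + K ≤ T / 8 := by
  have h1 : (fun T : ℝ => Real.log T + K) =o[atTop] fun T : ℝ => T :=
    Real.isLittleO_log_id_atTop.add (Asymptotics.isLittleO_const_id_atTop _)
  have h2 := h1.bound (c := 1 / 8) (by norm_num)
  filter_upwards [h2, eventually_ge_atTop 1] with T hT hT1
  rw [Real.norm_of_nonneg (by linarith : (0 : ℝ) ≤ T)] at hT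
  have := (le_abs_self _).trans hT
  linarith

lemma p38 (M : ℝ) : ∀ᶠ T : ℝ in atTop, M * T ^ (3 / 8 : ℝ) ≤ T := by
  filter_upwards [(tendsto_rpow_atTop (show (0 : ℝ) < 5 / 8 by norm_num)).eventually_ge_atTop M,
    eventually_ge_atTop 1] with T hT hT1
  have h1 : T ^ (5 / 8 : ℝ) * T ^ (3 / 8 : ℝ) = T := by
    rw [← Real.rpow_add (by linarith)]
    norm_num
  have h2 := mul_le_mul_of_nonneg_right hT (show 0 ≤ T ^ (3 / 8 : ℝ) by positivity)
  linarith

lemma gl : ∀ᶠ T : ℝ in atTop, 16 * (Real.sqrt T * (1 + Real.log T)) ≤ T := by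
  have h1 : (fun T : ℝ => 1 + Real.log T) =o[atTop] fun T : ℝ => T ^ (1 / 2 : ℝ) := by
    refine (Asymptotics.isLittleO_const_left.2 (Or.inr ?_)).add
      (isLittleO_log_rpow_atTop (by norm_num))
    exact tendsto_norm_atTop_atTop.comp (tendsto_rpow_atTop (by norm_num))
  have h2 := h1.bound (c := 1 / 16) (by norm_num)
  filter_upwards [h2, eventually_ge_atTop 1] with T hT hT1
  rw [Real.norm_of_nonneg (by positivity : (0 : ℝ) ≤ T ^ (1 / 2 : ℝ)), ← Real.sqrt_eq_rpow] at hT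
  have h3 := (le_abs_self _).trans hT
  have h4 := Real.mul_self_sqrt (show 0 ≤ T by linarith)
  have h5 := Real.sqrt_nonneg T
  nlinarith

lemma X_le {κ T : ℝ} (hT : 1 ≤ T) (hκ8 : κ ≤ 1 / 8) : (XK κ T : ℝ) ≤ T ^ (1 / 8 : ℝ) := by
  have h2 : (XK κ T : ℝ) ≤ T ^ κ := Nat.floor_le (by positivity)
  exact h2.trans (Real.rpow_le_rpow_of_exponent_le hT hκ8)

lemma X_ge {κ T : ℝ} (hT : 1 ≤ T) (hκ : 0 < κ) : 1 ≤ XK κ T := by
  apply Nat.le_floor
  rw [Nat.cast_one]
  exact Real.one_le_rpow hT hκ.le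

lemma X3_le {κ T : ℝ} (hT : 1 ≤ T) (hκ8 : κ ≤ 1 / 8) : (XK κ T : ℝ) ^ 3 ≤ T ^ (3 / 8 : ℝ) := by
  have h2 : (XK κ T : ℝ) ^ 3 ≤ (T ^ (1 / 8 : ℝ)) ^ 3 :=
    pow_le_pow_left₀ (by positivity) (X_le hT hκ8) 3
  have h3 : (T ^ (1 / 8 : ℝ)) ^ 3 = T ^ (3 / 8 : ℝ) := by
    rw [← Real.rpow_natCast, ← Real.rpow_mul (by linarith)]
    norm_num
  rwa [h3] at h2

lemma X4_le {κ T : ℝ} (hT : 1 ≤ T) (hκ8 : κ ≤ 1 / 8) : ((XK κ T ^ 4 : ℕ) : ℝ) ≤ Real.sqrt T := by
  push_cast
  have h2 : (XK κ T : ℝ) ^ 4 ≤ (T ^ (1 / 8 : ℝ)) ^ 4 :=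
    pow_le_pow_left₀ (by positivity) (X_le hT hκ8) 4
  have h3 : (T ^ (1 / 8 : ℝ)) ^ 4 = Real.sqrt T := by
    rw [← Real.rpow_natCast, ← Real.rpow_mul (by linarith), Real.sqrt_eq_rpow]
    norm_num
  rwa [h3] at h2

lemma rc1 {l : ℝ} (hl : 0 < l) (h : ℝ) (n : ℕ) : |rc l h n| ≤ 1 := by
  have := rc_bd hl h n
  exact abs_le_of_sq_le_sq (by rw [one_pow]; exact this) (by norm_num)

/-- the second moment -/
lemma two (cr2 : S_CR2) {l h κ T lam b : ℝ} (hl : 0 < l) (hlam : 0 < lam) (hT : 0 ≤ T)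
    (hX3 : 4 * lam * (XK κ (T / lam) : ℝ) ^ 3 ≤ T) :
    |(∫ t in (5 / 4 * T)..(7 / 4 * T), PP (rc l h) (XK κ (T / lam)) ((t + b) / lam) *
      PP (rc l h) (XK κ (T / lam)) ((t + b) / lam)) - T / 4 * VS (rc l h) (XK κ (T / lam))| ≤ T := by
  set X := XK κ (T / lam) with hX
  set v := rc l h with hv
  have hvb : ∀ n, |v n| ≤ 1 := rc1 hl h
  have h0 := sub_int (fun s => PP v X s * PP v X s) hlam (5 / 4 * T) (7 / 4 * T) b
  have hAB' : (5 / 4 * T + b) / lam ≤ (7 / 4 * T + b) / lam :=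
    div_le_div_of_nonneg_right (by linarith) hlam.le
  have h1 := cr2 X v v hvb hvb ((5 / 4 * T + b) / lam) ((7 / 4 * T + b) / lam) 0 0 hAB'
  have c0 : ∑ p ∈ Prm X, v p * v p * Real.cos ((0 - 0) * Real.log p) = VS v X := by
    rw [VS_eq']
    refine Finset.sum_congr rfl fun p _ => ?_
    rw [sub_zero, zero_mul, Real.cos_zero]; ring
  rw [c0] at h1
  have h3 : (∫ t in ((5 / 4 * T + b) / lam)..((7 / 4 * T + b) / lam),
      (∑ p ∈ Prm X, v p * Real.cos ((t + 0) * Real.log p)) *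
      (∑ q ∈ Prm X, v q * Real.cos ((t + 0) * Real.log q))) =
      ∫ t in ((5 / 4 * T + b) / lam)..((7 / 4 * T + b) / lam), PP v X t * PP v X t := by
    refine intervalIntegral.integral_congr fun t _ => ?_
    simp only [PP, add_zero]
  rw [h3] at h1
  rw [h0]
  set J := ∫ t in ((5 / 4 * T + b) / lam)..((7 / 4 * T + b) / lam), PP v X t * PP v X t with hJ
  have h4 : lam * J - T / 4 * VS v X =
      lam * (J - ((7 / 4 * T + b) / lam - (5 / 4 * T + b) / lam) / 2 * VS v X) := by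
    field_simp; ring
  rw [h4, abs_mul, abs_of_pos hlam]
  have h5 := mul_le_mul_of_nonneg_left h1 hlam.le
  linarith

/-- the fourth moment -/
lemma four {l h κ T lam b : ℝ} (hlam : 0 < lam) (hκ : 0 < κ) (hκ8 : κ ≤ 1 / 8)
    (hT0 : 0 ≤ T) (hT : 1 ≤ T / lam)
    (hg : 16 * (Real.sqrt (T / lam) * (1 + Real.log (T / lam))) ≤ T / lam) :
    ∫ t in (5 / 4 * T)..(7 / 4 * T), PP (rc l h) (XK κ (T / lam)) ((t + b) / lam) ^ 4 ≤
      2 * T * VS (rc l h) (XK κ (T / lam)) ^ 2 := by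
  set X := XK κ (T / lam) with hX
  set v := rc l h with hv
  have h0 := sub_int (fun s => PP v X s ^ 4) hlam (5 / 4 * T) (7 / 4 * T) b
  have hAB' : (5 / 4 * T + b) / lam ≤ (7 / 4 * T + b) / lam :=
    div_le_div_of_nonneg_right (by linarith) hlam.le
  rw [h0]
  have h1 := mul_le_mul_of_nonneg_left (m4 v X (X_ge hT hκ) (T / lam) _ _ hT hAB'
    (X4_le hT hκ8)) hlam.le
  refine h1.trans ?_
  have e : lam * (((7 / 4 * T + b) / lam - (5 / 4 * T + b) / lam) * (2 * VS v X ^ 2) +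
      16 * (Real.sqrt (T / lam) * (1 + Real.log (T / lam))) * VS v X ^ 2) =
      T * VS v X ^ 2 + lam * (16 * (Real.sqrt (T / lam) * (1 + Real.log (T / lam)))) *
        VS v X ^ 2 := by
    field_simp; ring
  rw [e]
  have h2 : lam * (16 * (Real.sqrt (T / lam) * (1 + Real.log (T / lam)))) ≤ T := by
    have := mul_le_mul_of_nonneg_left hg hlam.le
    have e2 : lam * (T / lam) = T := by field_simp
    linarith
  have h3 := mul_le_mul_of_nonneg_right h2 (show 0 ≤ VS v X ^ 2 by positivity)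
  linarith

/-- the mean of a cosine -/
lemma cos_int {ω : ℝ} (hω : 1 / 2 ≤ ω) (A B : ℝ) : |∫ t in A..B, Real.cos (t * ω)| ≤ 4 := by
  have hω0 : ω ≠ 0 := by linarith
  rw [intervalIntegral.integral_comp_mul_right (fun x => Real.cos x) hω0, integral_cos, smul_eq_mul,
    abs_mul, abs_inv, abs_of_pos (show 0 < ω by linarith)]
  have h1 := Real.abs_sin_le_one (B * ω)
  have h2 := Real.abs_sin_le_one (A * ω)
  have h3 := abs_sub (Real.sin (B * ω)) (Real.sin (A * ω))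
  have h4 : ω⁻¹ ≤ 2 := by
    rw [inv_le_comm₀ (by linarith) (by norm_num)]
    linarith
  calc ω⁻¹ * |Real.sin (B * ω) - Real.sin (A * ω)| ≤ 2 * 2 :=
        mul_le_mul h4 (by linarith) (abs_nonneg _) (by norm_num)
    _ = 4 := by norm_num

/-- the mean -/
lemma mean {l h κ T lam b : ℝ} (hl : 0 < l) (hlam : 0 < lam)
    (hX3 : 4 * lam * (XK κ (T / lam) : ℝ) ^ 3 ≤ T) :
    |∫ t in (5 / 4 * T)..(7 / 4 * T), PP (rc l h) (XK κ (T / lam)) ((t + b) / lam)| ≤ T := by
  set X := XK κ (T / lam) with hX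
  set v := rc l h with hv
  rw [sub_int (fun s => PP v X s) hlam (5 / 4 * T) (7 / 4 * T) b, abs_mul, abs_of_pos hlam]
  set A := (5 / 4 * T + b) / lam
  set B := (7 / 4 * T + b) / lam
  have h1 : |∫ s in A..B, PP v X s| ≤ 4 * (X : ℝ) := by
    unfold PP
    rw [intervalIntegral.integral_finsetSum (fun p _ =>
      Continuous.intervalIntegrable (by fun_prop) _ _)]
    refine (Finset.abs_sum_le_sum_abs _ _).trans ?_
    have h2 : ∀ p ∈ Prm X, |∫ t in A..B, v p * Real.cos (t * Real.log p)| ≤ 4 := by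
      intro p hp
      have hpp := (mem_Prm.1 hp).1
      rw [intervalIntegral.integral_const_mul, abs_mul]
      have h3 : 1 / 2 ≤ Real.log p := by
        have h4 : Real.log 2 ≤ Real.log p :=
          Real.log_le_log (by norm_num) (by exact_mod_cast hpp.two_le)
        have := Real.log_two_gt_d9
        linarith
      calc |v p| * |∫ t in A..B, Real.cos (t * Real.log p)| ≤ 1 * 4 :=
            mul_le_mul (rc1 hl h p) (cos_int h3 A B) (abs_nonneg _) (by norm_num)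
        _ = 4 := one_mul _
    refine (Finset.sum_le_sum h2).trans ?_
    rw [Finset.sum_const, nsmul_eq_mul]
    have h3 : (Prm X).card ≤ X := by
      have : (Prm X).card ≤ (Finset.Icc 1 X).card := Finset.card_filter_le _ _
      rwa [Nat.card_Icc, Nat.add_sub_cancel] at this
    have h4 : ((Prm X).card : ℝ) ≤ X := by exact_mod_cast h3
    linarith
  have h2 : (X : ℝ) ≤ (X : ℝ) ^ 3 := by
    rcases Nat.eq_zero_or_pos X with h | h
    · rw [h]; simp
    · have h3 : (1 : ℝ) ≤ X := by exact_mod_cast h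
      have h4 : (X : ℝ) ^ 1 ≤ (X : ℝ) ^ 3 := pow_le_pow_right₀ h3 (by norm_num)
      simpa using h4
  have h3 := mul_le_mul_of_nonneg_left (h1.trans (mul_le_mul_of_nonneg_left h2 (by norm_num)))
    hlam.le
  linarith

end Pool.Agent.K7.H54.AF
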